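import Pool.Agent.Lib_MP_2a50c0.Sum

/-!
# The decomposition method for homogeneous uniform homeomorphisms
-/

set_option autoImplicit false

open scoped ENNReal

namespace Pool.Agent.UB

section shift
variable {X V : Type} [NormedAddCommGroup X] [NormedSpace ℝ X] [NormedAddCommGroup V] [NormedSpace ℝ V]

omit [NormedSpace ℝ X] [NormedSpace ℝ V] in
private theorem pair_sq (x : X) (v : V) : ‖(x, v)‖ ^ 2 ≤ ‖x‖ ^ 2 + ‖v‖ ^ 2 := by
  rw [Prod.norm_mk]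
  rcases max_choice ‖x‖ ‖v‖ with h | h <;> rw [h]
  · nlinarith [sq_nonneg ‖v‖]
  · nlinarith [sq_nonneg ‖x‖]

omit [NormedSpace ℝ X] [NormedSpace ℝ V] in
private theorem fst_sq (z : X × V) : ‖z.1‖ ^ 2 ≤ ‖z‖ ^ 2 :=
  pow_le_pow_left₀ (norm_nonneg _) (norm_fst_le z) 2

omit [NormedSpace ℝ X] [NormedSpace ℝ V] in
private theorem snd_sq (z : X × V) : ‖z.2‖ ^ 2 ≤ ‖z‖ ^ 2 :=
  pow_le_pow_left₀ (norm_nonneg _) (norm_snd_le z) 2

/-- insert `x` and shift the first coordinates -/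
private def shT (x : X) (z : ℕ → X × V) : ℕ → X × V
  | 0 => (x, (z 0).2)
  | n + 1 => ((z n).1, (z (n + 1)).2)

/-- shift the first coordinates back -/
private def shS (w : ℕ → X × V) : ℕ → X × V := fun n => ((w (n + 1)).1, (w n).2)

private theorem shT_sum (x : X) (z : LS (X × V)) :
    (Summable fun n => ‖shT x (fun n => z n) n‖ ^ 2) ∧
      ∑' n, ‖shT x (fun n => z n) n‖ ^ 2 ≤ ‖x‖ ^ 2 + 2 * ‖z‖ ^ 2 := by
  have hz := LS_summable z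
  have hz1 : Summable fun n => ‖z (n + 1)‖ ^ 2 := (summable_nat_add_iff 1).2 hz
  have hb : ∀ n, ‖shT x (fun n => z n) (n + 1)‖ ^ 2 ≤ ‖z n‖ ^ 2 + ‖z (n + 1)‖ ^ 2 := fun n =>
    (pair_sq _ _).trans (add_le_add (fst_sq _) (snd_sq _))
  have hs1 : Summable fun n => ‖shT x (fun n => z n) (n + 1)‖ ^ 2 :=
    Summable.of_nonneg_of_le (fun n => sq_nonneg _) hb (hz.add hz1)
  have hs : Summable fun n => ‖shT x (fun n => z n) n‖ ^ 2 := (summable_nat_add_iff 1).1 hs1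
  refine ⟨hs, ?_⟩
  rw [hs.tsum_eq_zero_add]
  have h1 : ∑' n, ‖shT x (fun n => z n) (n + 1)‖ ^ 2 ≤ ∑' n, (‖z n‖ ^ 2 + ‖z (n + 1)‖ ^ 2) :=
    Summable.tsum_le_tsum hb hs1 (hz.add hz1)
  rw [hz.tsum_add hz1] at h1
  have h2 : ‖z‖ ^ 2 = ‖z 0‖ ^ 2 + ∑' n, ‖z (n + 1)‖ ^ 2 := by
    rw [LS_norm, hz.tsum_eq_zero_add]
  have h3 : ‖shT x (fun n => z n) 0‖ ^ 2 ≤ ‖x‖ ^ 2 + ‖z 0‖ ^ 2 :=
    (pair_sq _ _).trans (add_le_add le_rfl (snd_sq _))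
  rw [← LS_norm] at h1
  linarith

private theorem shS_sum (w : LS (X × V)) :
    (Summable fun n => ‖shS (fun n => w n) n‖ ^ 2) ∧
      ∑' n, ‖shS (fun n => w n) n‖ ^ 2 ≤ 2 * ‖w‖ ^ 2 := by
  have hz := LS_summable w
  have hz1 : Summable fun n => ‖w (n + 1)‖ ^ 2 := (summable_nat_add_iff 1).2 hz
  have hb : ∀ n, ‖shS (fun n => w n) n‖ ^ 2 ≤ ‖w (n + 1)‖ ^ 2 + ‖w n‖ ^ 2 := fun n =>
    (pair_sq _ _).trans (add_le_add (fst_sq _) (snd_sq _))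
  have hs : Summable fun n => ‖shS (fun n => w n) n‖ ^ 2 :=
    Summable.of_nonneg_of_le (fun n => sq_nonneg _) hb (hz1.add hz)
  refine ⟨hs, ?_⟩
  have h1 := Summable.tsum_le_tsum hb hs (hz1.add hz)
  rw [hz1.tsum_add hz, ← LS_norm] at h1
  have h2 : ‖w‖ ^ 2 = ‖w 0‖ ^ 2 + ∑' n, ‖w (n + 1)‖ ^ 2 := by
    rw [LS_norm, hz.tsum_eq_zero_add]
  nlinarith [sq_nonneg ‖w 0‖]

private noncomputable def shTl : (X × LS (X × V)) →ₗ[ℝ] LS (X × V) where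
  toFun p := ⟨shT p.1 (fun n => p.2 n), LS_mem (shT_sum p.1 p.2).1⟩
  map_add' p p' := by
    ext n
    · cases n <;> rfl
    · cases n <;> rfl
  map_smul' c p := by
    ext n
    · cases n <;> rfl
    · cases n <;> rfl

private noncomputable def shSl : LS (X × V) →ₗ[ℝ] (X × LS (X × V)) where
  toFun w := ((w 0).1, ⟨shS (fun n => w n), LS_mem (shS_sum w).1⟩)
  map_add' _ _ := rfl
  map_smul' _ _ := rfl

theorem HE.shift : HE (X × LS (X × V)) (LS (X × V)) := by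
  have hT : ∀ p : X × LS (X × V), ‖shTl p‖ ≤ 2 * ‖p‖ := by
    intro p
    have h1 : ‖shTl p‖ ^ 2 ≤ ‖p.1‖ ^ 2 + 2 * ‖p.2‖ ^ 2 := by
      rw [LS_norm]
      exact (shT_sum p.1 p.2).2
    have h2 := norm_fst_le p
    have h3 := norm_snd_le p
    have h4 : ‖p.1‖ ^ 2 ≤ ‖p‖ ^ 2 := pow_le_pow_left₀ (norm_nonneg _) h2 2
    have h5 : ‖p.2‖ ^ 2 ≤ ‖p‖ ^ 2 := pow_le_pow_left₀ (norm_nonneg _) h3 2
    have h6 : ‖shTl p‖ ^ 2 ≤ (2 * ‖p‖) ^ 2 := by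
      rw [mul_pow]
      nlinarith [sq_nonneg ‖p‖]
    exact (abs_le_of_sq_le_sq' h6 (by positivity)).2
  have hS : ∀ w : LS (X × V), ‖shSl w‖ ≤ 2 * ‖w‖ := by
    intro w
    have h0 : ‖w 0‖ ≤ ‖w‖ := lp.norm_apply_le_norm (by norm_num) w 0
    have h1 : ‖(shSl w).1‖ ≤ ‖w‖ := (norm_fst_le (w 0)).trans h0
    have h2 : ‖(shSl w).2‖ ^ 2 ≤ 2 * ‖w‖ ^ 2 := by
      rw [LS_norm]
      exact (shS_sum w).2
    have h3 : ‖(shSl w).2‖ ^ 2 ≤ (2 * ‖w‖) ^ 2 := by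
      rw [mul_pow]
      nlinarith [sq_nonneg ‖w‖]
    have h4 := (abs_le_of_sq_le_sq' h3 (by positivity)).2
    rw [Prod.norm_def]
    exact max_le (h1.trans (by linarith [norm_nonneg w])) h4
  refine HE.of_clm (shTl.mkContinuous 2 hT) (shSl.mkContinuous 2 hS) (fun p => ?_) fun w => ?_
  · refine Prod.ext rfl ?_
    ext n
    · rfl
    · cases n <;> rfl
  · ext n
    · cases n <;> rfl
    · cases n <;> rfl

end shift

/-! ## `ℓ₂(ℓ₂) = ℓ₂` -/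

private theorem cur_sum (u : LS ℝ) : (Summable fun p : ℕ × ℕ => ‖u (Nat.pair p.1 p.2)‖ ^ 2) ∧
    ∑' p : ℕ × ℕ, ‖u (Nat.pair p.1 p.2)‖ ^ 2 = ‖u‖ ^ 2 := by
  have h := LS_summable u
  constructor
  · exact (Equiv.summable_iff Nat.pairEquiv (f := fun n => ‖u n‖ ^ 2)).2 h
  · rw [LS_norm]
    exact Equiv.tsum_eq Nat.pairEquiv (fun n => ‖u n‖ ^ 2)

private noncomputable def curR (u : LS ℝ) (n : ℕ) : LS ℝ :=
  ⟨fun m => u (Nat.pair n m), LS_mem ((cur_sum u).1.prod_factor n)⟩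

private theorem cur_norm (u : LS ℝ) :
    (Summable fun n => ‖curR u n‖ ^ 2) ∧ ∑' n, ‖curR u n‖ ^ 2 = ‖u‖ ^ 2 := by
  obtain ⟨h1, h2⟩ := cur_sum u
  have h3 : ∀ n, ‖curR u n‖ ^ 2 = ∑' m, ‖u (Nat.pair n m)‖ ^ 2 := fun n => LS_norm _
  constructor
  · have h4 := ((summable_prod_of_nonneg (fun p => sq_nonneg _)).1 h1).2
    exact h4.congr fun n => (h3 n).symm
  · rw [← h2, h1.tsum_prod]
    exact tsum_congr h3

private theorem unc_sum (z : LS (LS ℝ)) :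
    (Summable fun k : ℕ => ‖z (Nat.unpair k).1 (Nat.unpair k).2‖ ^ 2) ∧
      ∑' k : ℕ, ‖z (Nat.unpair k).1 (Nat.unpair k).2‖ ^ 2 = ‖z‖ ^ 2 := by
  have h1 : Summable fun p : ℕ × ℕ => ‖z p.1 p.2‖ ^ 2 := by
    refine (summable_prod_of_nonneg (fun p => sq_nonneg _)).2 ⟨fun n => LS_summable (z n), ?_⟩
    refine (LS_summable z).congr fun n => LS_norm (z n)
  have h2 : (fun k : ℕ => ‖z (Nat.unpair k).1 (Nat.unpair k).2‖ ^ 2) =
      (fun p : ℕ × ℕ => ‖z p.1 p.2‖ ^ 2) ∘ Nat.pairEquiv.symm := rfl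
  constructor
  · rw [h2]
    exact (Equiv.summable_iff _).2 h1
  · rw [h2]
    have h3 := Equiv.tsum_eq Nat.pairEquiv.symm (fun p : ℕ × ℕ => ‖z p.1 p.2‖ ^ 2)
    rw [LS_norm]
    refine (h3.trans (h1.tsum_prod)).trans ?_
    exact tsum_congr fun n => (LS_norm (z n)).symm

private noncomputable def curT : LS ℝ →ₗ[ℝ] LS (LS ℝ) where
  toFun u := ⟨fun n => curR u n, LS_mem (cur_norm u).1⟩
  map_add' _ _ := rfl
  map_smul' _ _ := rfl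

private noncomputable def curS : LS (LS ℝ) →ₗ[ℝ] LS ℝ where
  toFun z := ⟨fun k => z (Nat.unpair k).1 (Nat.unpair k).2, LS_mem (unc_sum z).1⟩
  map_add' _ _ := rfl
  map_smul' _ _ := rfl

theorem HE.curry : HE (LS ℝ) (LS (LS ℝ)) := by
  have hT : ∀ u : LS ℝ, ‖curT u‖ ≤ 1 * ‖u‖ := by
    intro u
    have h1 : ‖curT u‖ ^ 2 = ‖u‖ ^ 2 := by
      rw [LS_norm]
      exact (cur_norm u).2
    rw [one_mul]
    exact (abs_le_of_sq_le_sq' h1.le (norm_nonneg _)).2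
  have hS : ∀ z : LS (LS ℝ), ‖curS z‖ ≤ 1 * ‖z‖ := by
    intro z
    have h1 : ‖curS z‖ ^ 2 = ‖z‖ ^ 2 := by
      rw [LS_norm]
      exact (unc_sum z).2
    rw [one_mul]
    exact (abs_le_of_sq_le_sq' h1.le (norm_nonneg _)).2
  refine HE.of_clm (curT.mkContinuous 1 hT) (curS.mkContinuous 1 hS) (fun u => ?_) fun z => ?_
  · ext k
    show u (Nat.pair (Nat.unpair k).1 (Nat.unpair k).2) = u k
    rw [Nat.pair_unpair]
  · ext n m
    show z (Nat.unpair (Nat.pair n m)).1 (Nat.unpair (Nat.pair n m)).2 = z n m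
    rw [Nat.unpair_pair]

/-- a factor of `ℓ₂` is absorbed by `ℓ₂` -/
theorem HE.absorb {X V : Type} [NormedAddCommGroup X] [NormedSpace ℝ X] [NormedAddCommGroup V]
    [NormedSpace ℝ V] (h : HE (X × V) (LS ℝ)) : HE (X × LS ℝ) (LS ℝ) := by
  have h1 : HE (LS (X × V)) (LS ℝ) := h.sum.trans HE.curry.symm
  exact ((HE.refl X).prod h1.symm).trans (HE.shift.trans h1)

/-- the square of `ℓ₂` -/
theorem HE.sq : HE (LS ℝ × LS ℝ) (LS ℝ) := by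
  refine HE.absorb (V := Fin 0 → ℝ) ?_
  refine HE.of_clm (ContinuousLinearMap.fst ℝ (LS ℝ) (Fin 0 → ℝ))
    (ContinuousLinearMap.inl ℝ (LS ℝ) (Fin 0 → ℝ)) (fun p => ?_) fun y => rfl
  exact Prod.ext rfl (Subsingleton.elim _ _)

end Pool.Agent.UB
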