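import Mathlib

/-!
# MP_2a50c0_an: names used in the statements
-/

open MeasureTheory
open scoped ENNReal

namespace Pool.Agent.UB

/-- the real Banach space `L_p[0,1]` (Lebesgue measure) -/
abbrev LL (p : ℝ≥0∞) : Type := Lp ℝ p (volume.restrict (Set.Icc (0 : ℝ) 1))

/-- the real Banach space `ℓ_p` -/
abbrev El (p : ℝ≥0∞) : Type := lp (fun _ : ℕ => ℝ) p

/-- `F` contains an isomorphic copy of `E`: there is a bounded linear map `T : E → F` with
`c ‖x‖ ≤ ‖T x‖` for some `c > 0` -/
def Embeds (E F : Type) [NormedAddCommGroup E] [NormedSpace ℝ E] [NormedAddCommGroup F]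
    [NormedSpace ℝ F] : Prop :=
  ∃ (T : E →L[ℝ] F) (c : ℝ), 0 < c ∧ ∀ x, c * ‖x‖ ≤ ‖T x‖

/-- the closed unit balls of `E` and `F` are uniformly homeomorphic -/
def BallsUH (E F : Type) [NormedAddCommGroup E] [NormedAddCommGroup F] : Prop :=
  Nonempty (UniformEquiv (Metric.closedBall (0 : E) 1) (Metric.closedBall (0 : F) 1))

end Pool.Agent.UB
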