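import Pool.Agent.Lib_MP_2a50c0.Defs

/-!
# MP_2a50c0_an: names used in the statement of the section criterion
-/

namespace Pool.Agent.UB

/-- `F` contains a complemented isomorphic copy of `E` -/
def ComplCopy (E F : Type) [NormedAddCommGroup E] [NormedSpace ℝ E] [NormedAddCommGroup F]
    [NormedSpace ℝ F] : Prop :=
  ∃ (S : E →L[ℝ] F) (P : F →L[ℝ] E), ∀ a, P (S a) = a

/-- the quotient map `Y → Y/X` has a section on the closed unit ball of `Y/X` which is uniformly
continuous -/
def UCSection {Y : Type} [NormedAddCommGroup Y] [NormedSpace ℝ Y] (X : Submodule ℝ Y) : Prop :=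
  ∃ σ : Y ⧸ X → Y, UniformContinuousOn σ (Metric.closedBall 0 1) ∧
    ∀ q ∈ Metric.closedBall (0 : Y ⧸ X) 1, Submodule.Quotient.mk (σ q) = q

end Pool.Agent.UB
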