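import Pool.Agent.Lib_MP_2a50c0.LpM
import Pool.Agent.Lib_MP_2a50c0.Dec

/-!
# The Mazur map for `ℓ_p`; separable Hilbert spaces
-/

set_option autoImplicit false

open Filter Topology
open scoped ENNReal

namespace Pool.Agent.UB

section ell
variable {p q : ℝ≥0∞}

theorem lq_sum [Fact (1 ≤ p)] (hp : p ≠ ∞) (f : lp (fun _ : ℕ => ℝ) p) :
    Summable fun n => |f n| ^ p.toReal := (lp.memℓp f).summable (p_pos p hp)

theorem lq_norm [Fact (1 ≤ p)] (hp : p ≠ ∞) (f : lp (fun _ : ℕ => ℝ) p) :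
    ‖f‖ ^ p.toReal = ∑' n, |f n| ^ p.toReal := lp.norm_rpow_eq_tsum (p_pos p hp) f

/-- the Mazur map -/
noncomputable def ml [Fact (1 ≤ p)] [Fact (1 ≤ q)] (hp : p ≠ ∞) (hq : q ≠ ∞)
    (f : lp (fun _ : ℕ => ℝ) p) : lp (fun _ : ℕ => ℝ) q :=
  ⟨fun n => ps (p.toReal / q.toReal) (f n), by
    have hP := p_pos p hp
    have hQ := p_pos q hq
    refine memℓp_gen ((lq_sum hp f).congr fun n => ?_)
    rw [Real.norm_eq_abs, ps_abs (by positivity), ← Real.rpow_mul (abs_nonneg _),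
      div_mul_cancel₀ _ hQ.ne']⟩

theorem ml_apply [Fact (1 ≤ p)] [Fact (1 ≤ q)] (hp : p ≠ ∞) (hq : q ≠ ∞)
    (f : lp (fun _ : ℕ => ℝ) p) (n : ℕ) : ml hp hq f n = ps (p.toReal / q.toReal) (f n) := rfl

theorem ml_norm [Fact (1 ≤ p)] [Fact (1 ≤ q)] (hp : p ≠ ∞) (hq : q ≠ ∞)
    (f : lp (fun _ : ℕ => ℝ) p) (hf : ‖f‖ = 1) : ‖ml hp hq f‖ = 1 := by
  have hP := p_pos p hp
  have hQ := p_pos q hq
  have h1 : ‖ml hp hq f‖ ^ q.toReal = 1 := by
    rw [lq_norm hq]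
    have h2 : ∑' n, |ml hp hq f n| ^ q.toReal = ∑' n, |f n| ^ p.toReal := by
      refine tsum_congr fun n => ?_
      rw [ml_apply, ps_abs (by positivity), ← Real.rpow_mul (abs_nonneg _),
        div_mul_cancel₀ _ hQ.ne']
    rw [h2, ← lq_norm hp, hf, Real.one_rpow]
  have h2 : (‖ml hp hq f‖ ^ q.toReal) ^ (q.toReal)⁻¹ = 1 := by rw [h1, Real.one_rpow]
  rwa [← Real.rpow_mul (norm_nonneg _), mul_inv_cancel₀ hQ.ne', Real.rpow_one] at h2

theorem ml_inv [Fact (1 ≤ p)] [Fact (1 ≤ q)] (hp : p ≠ ∞) (hq : q ≠ ∞)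
    (f : lp (fun _ : ℕ => ℝ) p) : ml hq hp (ml hp hq f) = f := by
  have hP := p_pos p hp
  have hQ := p_pos q hq
  ext n
  rw [ml_apply, ml_apply]
  refine ps_ps (by positivity) (by positivity) ?_ _
  field_simp

theorem ml_uc [Fact (1 ≤ p)] [Fact (1 ≤ q)] (hp : p ≠ ∞) (hq : q ≠ ∞) (ε : ℝ) (hε : 0 < ε) :
    ∃ δ > 0, ∀ f g : lp (fun _ : ℕ => ℝ) p, ‖f‖ = 1 → ‖g‖ = 1 → ‖f - g‖ ≤ δ →
      ‖ml hp hq f - ml hp hq g‖ ≤ ε := by
  have hP := p_pos p hp
  have hQ := p_pos q hq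
  obtain ⟨C, hC, h⟩ := ps_ineq hP hQ (ε := ε ^ q.toReal / 4) (by positivity)
  refine ⟨(ε ^ q.toReal / (2 * C)) ^ (p.toReal)⁻¹, by positivity, fun f g hf hg hfg => ?_⟩
  have h1 : ‖ml hp hq f - ml hp hq g‖ ^ q.toReal ≤
      ε ^ q.toReal / 4 * (‖f‖ ^ p.toReal + ‖g‖ ^ p.toReal) + C * ‖f - g‖ ^ p.toReal := by
    have hI1 : Summable (fun n => |f n| ^ p.toReal + |g n| ^ p.toReal) :=
      (lq_sum hp f).add (lq_sum hp g)
    have hI2 : Summable (fun n => ε ^ q.toReal / 4 * (|f n| ^ p.toReal + |g n| ^ p.toReal)) :=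
      hI1.mul_left _
    have hI3 : Summable (fun n => C * |(f - g) n| ^ p.toReal) := (lq_sum hp (f - g)).mul_left _
    rw [lq_norm hq, lq_norm hp f, lq_norm hp g, lq_norm hp (f - g),
      ← (lq_sum hp f).tsum_add (lq_sum hp g), ← tsum_mul_left, ← tsum_mul_left,
      ← hI2.tsum_add hI3]
    refine Summable.tsum_le_tsum (fun n => ?_) (lq_sum hq _) (hI2.add hI3)
    exact h (f n) (g n)
  rw [hf, hg, Real.one_rpow] at h1
  have h2 : ‖f - g‖ ^ p.toReal ≤ ε ^ q.toReal / (2 * C) := by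
    have h3 := Real.rpow_le_rpow (norm_nonneg _) hfg hP.le
    rwa [← Real.rpow_mul (by positivity), inv_mul_cancel₀ hP.ne', Real.rpow_one] at h3
  have h4 : C * ‖f - g‖ ^ p.toReal ≤ ε ^ q.toReal / 2 := by
    have h5 := mul_le_mul_of_nonneg_left h2 hC.le
    have h6 : C * (ε ^ q.toReal / (2 * C)) = ε ^ q.toReal / 2 := by field_simp
    linarith
  have h7 : ‖ml hp hq f - ml hp hq g‖ ^ q.toReal ≤ ε ^ q.toReal := by linarith
  exact (Real.rpow_le_rpow_iff (norm_nonneg _) hε.le hQ).1 h7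

theorem HE.ell (p : ℝ≥0∞) [Fact (1 ≤ p)] (hp : p ≠ ∞) : HE (lp (fun _ : ℕ => ℝ) p) (LS ℝ) :=
  HE.of_sphere (Φ := ml hp ENNReal.ofNat_ne_top) (Ψ := ml ENNReal.ofNat_ne_top hp)
    (ml_norm hp _) (ml_norm _ hp) (fun f _ => ml_inv hp _ f) (fun g _ => ml_inv _ hp g)
    (ml_uc hp _) (ml_uc _ hp)

end ell

/-! ## Separable Hilbert spaces -/

section hilbert
variable {H : Type} [NormedAddCommGroup H] [InnerProductSpace ℝ H]

theorem orth_countable [TopologicalSpace.SeparableSpace H] {w : Set H}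
    (hw : Orthonormal ℝ ((↑) : w → H)) : w.Countable := by
  have hd : w.PairwiseDisjoint fun x => Metric.ball x (1 / 2) := by
    intro x hx y hy hxy
    refine Metric.ball_disjoint_ball ?_
    have h1 : ‖x - y‖ ^ 2 = 2 := by
      have e1 : ‖x‖ = 1 := hw.1 ⟨x, hx⟩
      have e2 : ‖y‖ = 1 := hw.1 ⟨y, hy⟩
      have e3 : inner ℝ x y = 0 := hw.2 (i := ⟨x, hx⟩) (j := ⟨y, hy⟩) fun h =>
        hxy (congrArg Subtype.val h)
      rw [norm_sub_sq_real, e1, e2, e3]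
      norm_num
    rw [dist_eq_norm]
    nlinarith [norm_nonneg (x - y)]
  exact hd.countable_of_isOpen (fun _ _ => Metric.isOpen_ball) fun x _ =>
    ⟨x, Metric.mem_ball_self (by norm_num)⟩

theorem HE.hilbert [CompleteSpace H] [TopologicalSpace.SeparableSpace H]
    (hinf : ¬ FiniteDimensional ℝ H) : HE H (LS ℝ) := by
  obtain ⟨w, b, hb⟩ := exists_hilbertBasis ℝ H
  have ho : Orthonormal ℝ ((↑) : w → H) := hb ▸ b.orthonormal
  have hc : w.Countable := orth_countable ho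
  have hi : w.Infinite := by
    intro hfin
    have hsp := b.dense_span
    rw [hb, Subtype.range_coe] at hsp
    have : FiniteDimensional ℝ (Submodule.span ℝ w) := FiniteDimensional.span_of_finite ℝ hfin
    have hcl : IsClosed ((Submodule.span ℝ w : Submodule ℝ H) : Set H) :=
      Submodule.closed_of_finiteDimensional _
    rw [hcl.submodule_topologicalClosure_eq] at hsp
    exact hinf (Module.Finite.equiv ((LinearEquiv.ofEq _ _ hsp).trans Submodule.topEquiv))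
  have : Countable w := hc.to_subtype
  have : Infinite w := hi.to_subtype
  obtain ⟨e⟩ : Nonempty (ℕ ≃ w) := nonempty_equiv_of_countable
  have ho' : Orthonormal ℝ (fun n : ℕ => ((e n : w) : H)) := ho.comp e e.injective
  have hsp : ⊤ ≤ (Submodule.span ℝ (Set.range fun n : ℕ => ((e n : w) : H))).topologicalClosure := by
    have hr : (Set.range fun n : ℕ => ((e n : w) : H)) = w := by
      have : (fun n : ℕ => ((e n : w) : H)) = ((↑) : w → H) ∘ e := rfl
      rw [this, e.surjective.range_comp, Subtype.range_coe]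
    rw [hr]
    have h1 := b.dense_span
    rw [hb, Subtype.range_coe] at h1
    exact h1.ge
  let B : HilbertBasis ℕ ℝ H := HilbertBasis.mk ho' hsp
  exact HE.of_equiv B.repr.toContinuousLinearEquiv

end hilbert

end Pool.Agent.UB
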