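import Pool.Agent.Lib_MP_2a50c0.HE

/-!
# Uniformly convex spaces: `Y` is equivalent to `X × Y ⧸ X`

The representative of minimal norm of a coset exists, is unique, depends homogeneously and
uniformly continuously on the coset.
-/

set_option autoImplicit false

open Filter Topology

namespace Pool.Agent.UB

section uc
variable {Y : Type} [NormedAddCommGroup Y] [NormedSpace ℝ Y] [UniformConvexSpace Y]

theorem uc_scaled {ε : ℝ} (hε : 0 < ε) : ∃ δ > 0, ∀ (R : ℝ) (u v : Y), 0 < R → ‖u‖ ≤ R →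
    ‖v‖ ≤ R → (2 - δ) * R < ‖u + v‖ → ‖u - v‖ < ε * R := by
  obtain ⟨δ, hδ, h⟩ := exists_forall_closed_ball_dist_add_le_two_sub Y hε
  refine ⟨δ, hδ, fun R u v hR hu hv huv => ?_⟩
  by_contra hc
  push Not at hc
  have hn : ∀ z : Y, ‖R⁻¹ • z‖ = ‖z‖ / R := fun z => by
    rw [norm_smul, Real.norm_of_nonneg (by positivity), inv_mul_eq_div]
  have h1 := h (x := R⁻¹ • u) (by rw [hn, div_le_one hR]; exact hu) (y := R⁻¹ • v)
    (by rw [hn, div_le_one hR]; exact hv) (by rw [← smul_sub, hn, le_div_iff₀ hR]; exact hc)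
  rw [← smul_add, hn, div_le_iff₀ hR] at h1
  linarith

variable (X : Submodule ℝ Y)

omit [UniformConvexSpace Y] in
/-- sums of two representatives -/
private theorem two_le {q : Y ⧸ X} {u v : Y} (hu : Submodule.Quotient.mk u = q)
    (hv : Submodule.Quotient.mk v = q) : 2 * ‖q‖ ≤ ‖u + v‖ := by
  have h1 : Submodule.Quotient.mk (u + v) = (2 : ℝ) • q := by
    rw [Submodule.Quotient.mk_add, hu, hv, two_smul]
  have h2 := Submodule.Quotient.norm_mk_le (S := X) (u + v)
  rw [h1, norm_smul, Real.norm_of_nonneg (by norm_num)] at h2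
  exact h2

theorem min_unique {q : Y ⧸ X} {u v : Y} (hu : Submodule.Quotient.mk u = q)
    (hv : Submodule.Quotient.mk v = q) (hu' : ‖u‖ ≤ ‖q‖) (hv' : ‖v‖ ≤ ‖q‖) : u = v := by
  rcases (norm_nonneg q).eq_or_lt with h0 | h0
  · rw [← h0] at hu' hv'
    rw [norm_le_zero_iff.1 hu', norm_le_zero_iff.1 hv']
  · by_contra hne
    have hpos : 0 < ‖u - v‖ := norm_pos_iff.2 (sub_ne_zero.2 hne)
    obtain ⟨δ, hδ, h⟩ := uc_scaled (Y := Y) (ε := ‖u - v‖ / ‖q‖) (by positivity)
    have h1 := h ‖q‖ u v h0 hu' hv' (lt_of_lt_of_le (by nlinarith) (two_le X hu hv))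
    rw [div_mul_cancel₀ _ h0.ne'] at h1
    exact lt_irrefl _ h1

theorem exists_min [CompleteSpace Y] [hX : IsClosed (X : Set Y)] (q : Y ⧸ X) :
    ∃ y : Y, Submodule.Quotient.mk y = q ∧ ‖y‖ ≤ ‖q‖ := by
  rcases (norm_nonneg q).eq_or_lt with h0 | h0
  · refine ⟨0, ?_, by rw [norm_zero]; exact norm_nonneg q⟩
    rw [Submodule.Quotient.mk_zero]
    exact (norm_eq_zero.1 h0.symm).symm
  · have hex : ∀ n : ℕ, ∃ y : Y, Submodule.Quotient.mk y = q ∧ ‖y‖ < ‖q‖ + 1 / ((n : ℝ) + 1) :=
      fun n => Submodule.Quotient.norm_mk_lt q (by positivity)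
    choose y hy1 hy2 using hex
    have hanti : ∀ n m : ℕ, n ≤ m → 1 / ((m : ℝ) + 1) ≤ 1 / ((n : ℝ) + 1) := fun n m hnm => by
      have : (n : ℝ) ≤ m := by exact_mod_cast hnm
      exact one_div_le_one_div_of_le (by positivity) (by linarith)
    have hc : CauchySeq y := by
      rw [Metric.cauchySeq_iff']
      intro ε hε
      obtain ⟨δ, hδ, h⟩ := uc_scaled (Y := Y) (ε := ε / (‖q‖ + 1)) (by positivity)
      obtain ⟨N, hN⟩ := exists_nat_one_div_lt (show (0 : ℝ) < δ * ‖q‖ / 2 by positivity)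
      refine ⟨N, fun n hn => ?_⟩
      have hN0 : (0 : ℝ) < 1 / ((N : ℝ) + 1) := by positivity
      have hN1 : 1 / ((N : ℝ) + 1) ≤ 1 := by
        rw [div_le_one (by positivity)]
        have : (0 : ℝ) ≤ N := Nat.cast_nonneg N
        linarith
      have h1 := h (‖q‖ + 1 / ((N : ℝ) + 1)) (y n) (y N) (by positivity)
        ((hy2 n).le.trans (add_le_add le_rfl (hanti N n hn))) (hy2 N).le
        (lt_of_lt_of_le (by nlinarith) (two_le X (hy1 n) (hy1 N)))
      rw [dist_eq_norm]
      refine h1.trans_le ?_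
      rw [div_mul_eq_mul_div, div_le_iff₀ (by positivity)]
      exact mul_le_mul_of_nonneg_left (by linarith) hε.le
    obtain ⟨z, hz⟩ := cauchySeq_tendsto_of_complete hc
    refine ⟨z, ?_, ?_⟩
    · refine sub_eq_zero.1 (norm_le_zero_iff.1 ?_)
      refine ge_of_tendsto' (tendsto_iff_norm_sub_tendsto_zero.1 hz) fun n => ?_
      rw [← hy1 n, ← Submodule.Quotient.mk_sub, norm_sub_rev (y n) z]
      exact Submodule.Quotient.norm_mk_le X (z - y n)
    · have h1 : Tendsto (fun n => ‖y n‖) atTop (𝓝 ‖z‖) := hz.norm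
      have h2 : Tendsto (fun n : ℕ => ‖q‖ + 1 / ((n : ℝ) + 1)) atTop (𝓝 (‖q‖ + 0)) :=
        tendsto_const_nhds.add tendsto_one_div_add_atTop_nhds_zero_nat
      rw [add_zero] at h2
      exact le_of_tendsto_of_tendsto' h1 h2 fun n => (hy2 n).le

/-- the representative of minimal norm -/
noncomputable def sel [CompleteSpace Y] [hX : IsClosed (X : Set Y)] (q : Y ⧸ X) : Y :=
  (exists_min X q).choose

theorem sel_mk [CompleteSpace Y] [hX : IsClosed (X : Set Y)] (q : Y ⧸ X) :
    Submodule.Quotient.mk (sel X q) = q := (exists_min X q).choose_spec.1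

theorem sel_norm [CompleteSpace Y] [hX : IsClosed (X : Set Y)] (q : Y ⧸ X) : ‖sel X q‖ ≤ ‖q‖ :=
  (exists_min X q).choose_spec.2

theorem sel_HU [CompleteSpace Y] [hX : IsClosed (X : Set Y)] : HU (sel X) := by
  refine ⟨fun t ht q => ?_, fun ε hε => ?_⟩
  · refine min_unique X (q := t • q) (sel_mk X _) ?_ (sel_norm X _) ?_
    · rw [Submodule.Quotient.mk_smul, sel_mk]
    · rw [norm_smul, norm_smul]
      exact mul_le_mul_of_nonneg_left (sel_norm X q) (norm_nonneg _)
  · obtain ⟨δ, hδ, h⟩ := uc_scaled (Y := Y) (ε := ε / 4) (by positivity)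
    set κ : ℝ := min (ε / 16) (min (1 / 4) (δ * ε / 64)) with hκ
    have hκ0 : 0 < κ := lt_min (by positivity) (lt_min (by norm_num) (by positivity))
    have hκ1 : κ ≤ ε / 16 := min_le_left _ _
    have hκ2 : κ ≤ 1 / 4 := (min_le_right _ _).trans (min_le_left _ _)
    have hκ3 : κ ≤ δ * ε / 64 := (min_le_right _ _).trans (min_le_right _ _)
    refine ⟨κ, hκ0, fun p q hp hq hpq => ?_⟩
    -- a small representative of the difference
    obtain ⟨w, hw1, hw2⟩ := Submodule.Quotient.norm_mk_lt (q - p) hκ0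
    have hw : ‖w‖ ≤ 2 * κ := by
      rw [norm_sub_rev] at hw2
      linarith
    have hu : Submodule.Quotient.mk (sel X p + w) = q := by
      rw [Submodule.Quotient.mk_add, sel_mk, hw1]
      abel
    have hpq' : ‖p‖ ≤ ‖q‖ + κ := by
      have := norm_sub_norm_le p q
      linarith
    have hun : ‖sel X p + w‖ ≤ ‖q‖ + 3 * κ := by
      refine (norm_add_le _ _).trans ?_
      have := sel_norm X p
      linarith
    have hvn : ‖sel X q‖ ≤ ‖q‖ + 3 * κ := by
      have := sel_norm X q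
      linarith
    have hmain : ‖sel X p + w - sel X q‖ ≤ ε / 2 := by
      rcases le_or_gt ‖q‖ (ε / 8) with h1 | h1
      · refine (norm_sub_le _ _).trans ?_
        have := sel_norm X q
        linarith
      · have h2 := h (‖q‖ + 3 * κ) (sel X p + w) (sel X q) (by positivity) hun hvn
          (lt_of_lt_of_le (by nlinarith) (two_le X hu (sel_mk X q)))
        refine h2.le.trans ?_
        nlinarith
    have hfin : sel X p - sel X q = (sel X p + w - sel X q) - w := by abel
    rw [hfin]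
    refine (norm_sub_le _ _).trans ?_
    linarith

/-- in a uniformly convex space every closed subspace splits off in the nonlinear sense -/
theorem HE.split [CompleteSpace Y] [hX : IsClosed (X : Set Y)] : HE Y (X × (Y ⧸ X)) := by
  have hmem : ∀ y : Y, y - sel X (Submodule.Quotient.mk y) ∈ X := fun y => by
    rw [← Submodule.Quotient.mk_eq_zero, Submodule.Quotient.mk_sub, sel_mk, sub_self]
  have hQ : HU fun y : Y => (Submodule.Quotient.mk y : Y ⧸ X) := by
    refine ⟨fun t _ y => Submodule.Quotient.mk_smul X t y, fun ε hε => ⟨ε, hε, fun x y _ _ h => ?_⟩⟩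
    rw [← Submodule.Quotient.mk_sub]
    exact (Submodule.Quotient.norm_mk_le X (x - y)).trans h
  have hP : HU fun y : Y => y - sel X (Submodule.Quotient.mk y) := HU.id.sub ((sel_HU X).comp hQ)
  have hP' : HU fun y : Y => (⟨y - sel X (Submodule.Quotient.mk y), hmem y⟩ : X) :=
    ⟨fun t ht y => Subtype.ext (hP.hom t ht y), hP.uc⟩
  have hS : HU fun z : X × (Y ⧸ X) => (z.1 : Y) + sel X z.2 := by
    refine HU.add ?_ ((sel_HU X).comp (HU.clm (ContinuousLinearMap.snd ℝ X (Y ⧸ X))))
    exact HU.clm (X.subtypeL.comp (ContinuousLinearMap.fst ℝ X (Y ⧸ X)))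
  refine ⟨fun y => (⟨y - sel X (Submodule.Quotient.mk y), hmem y⟩, Submodule.Quotient.mk y),
    fun z => (z.1 : Y) + sel X z.2, hP'.prodMk hQ, hS, fun y => ?_, fun z => ?_⟩
  · show y - sel X (Submodule.Quotient.mk y) + sel X (Submodule.Quotient.mk y) = y
    abel
  · obtain ⟨x, q⟩ := z
    have h1 : (Submodule.Quotient.mk ((x : Y) + sel X q) : Y ⧸ X) = q := by
      rw [Submodule.Quotient.mk_add, sel_mk, (Submodule.Quotient.mk_eq_zero X).2 x.2, zero_add]
    refine Prod.ext (Subtype.ext ?_) h1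
    show (x : Y) + sel X q - sel X (Submodule.Quotient.mk ((x : Y) + sel X q)) = x
    rw [h1]
    abel

end uc

/-- a subspace of a uniformly convex space is uniformly convex -/
theorem uc_sub {Y : Type} [NormedAddCommGroup Y] [NormedSpace ℝ Y] [UniformConvexSpace Y]
    (X : Submodule ℝ Y) : UniformConvexSpace X := by
  refine ⟨fun ε hε => ?_⟩
  obtain ⟨δ, hδ, h⟩ := UniformConvexSpace.uniform_convex (E := Y) hε
  exact ⟨δ, hδ, fun x hx y hy hxy => h (x := (x : Y)) hx (y := (y : Y)) hy hxy⟩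

end Pool.Agent.UB
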