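import Pool.Agent.Lib_MP_2a50c0.Ell
import Pool.Agent.Lib_MP_2a50c0.UC

/-!
# Assembly: subspaces of `L_p`
-/

set_option autoImplicit false

open MeasureTheory Filter Topology
open scoped ENNReal

namespace Pool.Agent.UB

section general
variable {E F : Type} [NormedAddCommGroup E] [NormedSpace ℝ E] [NormedAddCommGroup F] [NormedSpace ℝ F]

/-- an embedding is an isomorphism onto a closed subspace -/
theorem HE.range [CompleteSpace E] (T : E →L[ℝ] F) {c : ℝ} (hc : 0 < c)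
    (hT : ∀ x, c * ‖x‖ ≤ ‖T x‖) :
    IsClosed ((T : E →ₗ[ℝ] F).range : Set F) ∧ HE E (T : E →ₗ[ℝ] F).range := by
  have hinj : Function.Injective T := by
    rw [injective_iff_map_eq_zero]
    intro x hx
    have h1 := hT x
    rw [hx, norm_zero] at h1
    have h2 : ‖x‖ ≤ 0 := by nlinarith [norm_nonneg x]
    exact norm_le_zero_iff.1 h2
  have hanti : AntilipschitzWith ⟨c⁻¹, by positivity⟩ T := by
    refine AddMonoidHomClass.antilipschitz_of_bound T fun x => ?_
    show ‖x‖ ≤ c⁻¹ * ‖T x‖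
    rw [inv_mul_eq_div, le_div_iff₀ hc, mul_comm]
    exact hT x
  have hcl : IsClosed ((T : E →ₗ[ℝ] F).range : Set F) := by
    have h1 := hanti.isClosed_range T.uniformContinuous
    exact h1
  refine ⟨hcl, ?_⟩
  refine ⟨fun x => ⟨T x, LinearMap.mem_range_self (T : E →ₗ[ℝ] F) x⟩, fun y => y.2.choose, ?_, ?_,
    fun x => ?_, fun y => ?_⟩
  · exact ⟨fun t _ x => Subtype.ext (map_smul T t x), (HU.clm T).uc⟩
  · have hch : ∀ y : (T : E →ₗ[ℝ] F).range, T y.2.choose = y := fun y => y.2.choose_spec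
    refine ⟨fun t _ y => hinj ?_, fun ε hε => ⟨c * ε, by positivity, fun x y _ _ hxy => ?_⟩⟩
    · rw [map_smul, hch, hch]
      rfl
    · have h1 := hT (x.2.choose - y.2.choose)
      rw [map_sub, hch, hch] at h1
      have h2 : ‖(x : F) - (y : F)‖ ≤ c * ε := hxy
      exact le_of_mul_le_mul_left (h1.trans h2) hc
  · exact hinj (LinearMap.mem_range_self (T : E →ₗ[ℝ] F) x).choose_spec
  · exact Subtype.ext y.2.choose_spec

/-- infinite dimension is invariant -/
theorem HE.inf (h : HE E F) (hE : ¬ FiniteDimensional ℝ E) : ¬ FiniteDimensional ℝ F := by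
  intro hF
  obtain ⟨u⟩ := h.ball
  have hc : CompactSpace (Metric.closedBall (0 : F) 1) :=
    isCompact_iff_compactSpace.1 (isCompact_closedBall (0 : F) 1)
  have hc' : CompactSpace (Metric.closedBall (0 : E) 1) := u.toHomeomorph.symm.compactSpace
  exact hE (FiniteDimensional.of_isCompact_closedBall₀ ℝ one_pos
    (isCompact_iff_compactSpace.2 hc'))

/-- absorption: if `X` is a factor of `ℓ₂` and has `ℓ₂` as a factor then it is equivalent to `ℓ₂` -/
theorem HE.final {X V W Z : Type} [NormedAddCommGroup X] [NormedSpace ℝ X]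
    [NormedAddCommGroup V] [NormedSpace ℝ V] [NormedAddCommGroup W] [NormedSpace ℝ W]
    [NormedAddCommGroup Z] [NormedSpace ℝ Z] (h1 : HE (X × V) (LS ℝ)) (h2 : HE X (W × Z))
    (h3 : HE W (LS ℝ)) : HE X (LS ℝ) := by
  have h4 : HE X (LS ℝ × Z) := h2.trans (h3.prod (HE.refl Z))
  have h5 : HE (LS ℝ × Z) ((LS ℝ × LS ℝ) × Z) := HE.sq.symm.prod (HE.refl Z)
  have h6 : HE ((LS ℝ × LS ℝ) × Z) (LS ℝ × (LS ℝ × Z)) := HE.assoc _ _ _
  have h7 : HE (LS ℝ × (LS ℝ × Z)) (LS ℝ × X) := (HE.refl _).prod h4.symm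
  exact h4.trans (h5.trans (h6.trans (h7.trans ((HE.comm _ _).trans h1.absorb))))

end general

/-- `L_p` is equivalent to `ℓ₂` -/
theorem HE.Lp_LS {μ : Measure ℝ} [IsSeparable μ] (p : ℝ≥0∞) [Fact (1 ≤ p)] (hp : p ≠ ∞)
    (hinf : ¬ FiniteDimensional ℝ (Lp ℝ p μ)) : HE (Lp ℝ p μ) (LS ℝ) := by
  have h1 := HE.mazur μ p 2 hp ENNReal.ofNat_ne_top
  have : Fact ((2 : ℝ≥0∞) ≠ ∞) := ⟨ENNReal.ofNat_ne_top⟩
  exact h1.trans (HE.hilbert (h1.inf hinf))

theorem LS_inf : ¬ FiniteDimensional ℝ (LS ℝ) := by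
  intro h
  let b : HilbertBasis ℕ ℝ (LS ℝ) := default
  have h1 : LinearIndependent ℝ b := b.orthonormal.linearIndependent
  have h2 : Finite ℕ := h1.finite
  exact not_finite ℕ

/-- **Subspaces of `L_p`.** -/
theorem HE.subspace_Lp {μ : Measure ℝ} [IsSeparable μ] (p : ℝ≥0∞) [Fact (1 ≤ p)] (h1p : 1 < p)
    (hp : p ≠ ∞) (X : Submodule ℝ (Lp ℝ p μ)) (hX : IsClosed (X : Set (Lp ℝ p μ)))
    (W : Submodule ℝ X) (hW : IsClosed (W : Set X)) (hWL : HE W (LS ℝ)) : HE X (LS ℝ) := by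
  have huc := Lp_uniformConvex μ p h1p hp
  have hucX : UniformConvexSpace X := uc_sub X
  have hcX : CompleteSpace X := hX.completeSpace_coe
  have hinf : ¬ FiniteDimensional ℝ (Lp ℝ p μ) := by
    intro h
    exact (hWL.symm.inf LS_inf) inferInstance
  have hL : HE (X × (Lp ℝ p μ ⧸ X)) (LS ℝ) := (HE.split X).symm.trans (HE.Lp_LS p hp hinf)
  exact HE.final hL (HE.split W) hWL

end Pool.Agent.UB
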