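import Mathlib

/-!
# Positively homogeneous uniform homeomorphisms of Banach spaces

`HU f`: the map `f` is positively homogeneous and uniformly continuous on the unit ball.
`HE E F`: there is a bijection `E → F` such that it and its inverse are `HU`.
-/

set_option autoImplicit false

open Metric

namespace Pool.Agent.UB

section defs
variable {E F G : Type} [NormedAddCommGroup E] [NormedSpace ℝ E] [NormedAddCommGroup F] [NormedSpace ℝ F]
  [NormedAddCommGroup G] [NormedSpace ℝ G]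

/-- positively homogeneous and uniformly continuous on the unit ball -/
structure HU (f : E → F) : Prop where
  hom : ∀ (t : ℝ), 0 ≤ t → ∀ x, f (t • x) = t • f x
  uc : ∀ ε > 0, ∃ δ > 0, ∀ x y, ‖x‖ ≤ 1 → ‖y‖ ≤ 1 → ‖x - y‖ ≤ δ → ‖f x - f y‖ ≤ ε

theorem HU.zero {f : E → F} (hf : HU f) : f 0 = 0 := by
  have h := hf.hom 0 le_rfl 0
  rwa [zero_smul, zero_smul] at h

theorem HU.bdd {f : E → F} (hf : HU f) : ∃ C > 0, ∀ x, ‖f x‖ ≤ C * ‖x‖ := by
  obtain ⟨δ, hδ, h⟩ := hf.uc 1 one_pos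
  set r : ℝ := min δ 1 with hr
  have hr0 : 0 < r := lt_min hδ one_pos
  refine ⟨1 / r, by positivity, fun x => ?_⟩
  rcases eq_or_ne x 0 with hx | hx
  · rw [hx, hf.zero, norm_zero, norm_zero, mul_zero]
  · have hx0 : 0 < ‖x‖ := norm_pos_iff.2 hx
    have h1 : ‖(r / ‖x‖) • x‖ = r := by
      rw [norm_smul, Real.norm_of_nonneg (by positivity)]
      field_simp
    have h2 := h ((r / ‖x‖) • x) 0 (by rw [h1]; exact min_le_right _ _)
      (by rw [norm_zero]; exact zero_le_one) (by rw [sub_zero, h1]; exact min_le_left _ _)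
    rw [hf.zero, sub_zero, hf.hom _ (by positivity), norm_smul,
      Real.norm_of_nonneg (by positivity), div_mul_eq_mul_div, div_le_one hx0] at h2
    rw [div_mul_eq_mul_div, one_mul, le_div_iff₀ hr0, mul_comm]
    exact h2

/-- the scaled form of uniform continuity -/
theorem HU.scaled {f : E → F} (hf : HU f) {ε : ℝ} (hε : 0 < ε) : ∃ η > 0, ∀ (R : ℝ) (x y : E),
    ‖x‖ ≤ R → ‖y‖ ≤ R → ‖x - y‖ ≤ η * R → ‖f x - f y‖ ≤ ε * R := by
  obtain ⟨δ, hδ, h⟩ := hf.uc ε hε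
  refine ⟨δ, hδ, fun R x y hx hy hxy => ?_⟩
  rcases le_or_gt R 0 with hR | hR
  · have hx0 : x = 0 := norm_le_zero_iff.1 (hx.trans hR)
    have hy0 : y = 0 := norm_le_zero_iff.1 (hy.trans hR)
    have hR0 : R = 0 := by
      have h1 := norm_nonneg x
      linarith
    rw [hx0, hy0, sub_self, norm_zero, hR0, mul_zero]
  · have hs : ∀ z : E, z = R • (R⁻¹ • z) := fun z => by
      rw [smul_smul, mul_inv_cancel₀ hR.ne', one_smul]
    have hn : ∀ z : E, ‖R⁻¹ • z‖ = ‖z‖ / R := fun z => by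
      rw [norm_smul, Real.norm_of_nonneg (by positivity), inv_mul_eq_div]
    have h1 := h (R⁻¹ • x) (R⁻¹ • y) (by rw [hn, div_le_one hR]; exact hx)
      (by rw [hn, div_le_one hR]; exact hy)
      (by rw [← smul_sub, hn, div_le_iff₀ hR]; exact hxy)
    have h2 : f x - f y = R • (f (R⁻¹ • x) - f (R⁻¹ • y)) := by
      rw [smul_sub, ← hf.hom R hR.le, ← hf.hom R hR.le, ← hs, ← hs]
    rw [h2, norm_smul, Real.norm_of_nonneg hR.le, mul_comm]
    exact mul_le_mul_of_nonneg_right h1 hR.le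

/-- a dichotomy free form: the distance of the images in terms of the norms and the distance -/
theorem HU.sqle {f : E → F} (hf : HU f) {ε : ℝ} (hε : 0 < ε) : ∃ C > 0, ∀ x y : E,
    ‖f x - f y‖ ^ 2 ≤ ε * (‖x‖ ^ 2 + ‖y‖ ^ 2) + C * ‖x - y‖ ^ 2 := by
  obtain ⟨K, hK, hb⟩ := hf.bdd
  obtain ⟨η, hη, h⟩ := hf.scaled (Real.sqrt_pos.2 hε)
  refine ⟨(2 * K / η) ^ 2, by positivity, fun x y => ?_⟩
  set R := max ‖x‖ ‖y‖ with hR
  have hR0 : 0 ≤ R := (norm_nonneg x).trans (le_max_left _ _)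
  have hRs : R ^ 2 ≤ ‖x‖ ^ 2 + ‖y‖ ^ 2 := by
    rcases max_choice ‖x‖ ‖y‖ with h1 | h1
    · rw [hR, h1]
      nlinarith [sq_nonneg ‖y‖]
    · rw [hR, h1]
      nlinarith [sq_nonneg ‖x‖]
  have hxy : 0 ≤ ‖x - y‖ := norm_nonneg _
  rcases le_or_gt ‖x - y‖ (η * R) with h1 | h1
  · have h2 := h R x y (le_max_left _ _) (le_max_right _ _) h1
    have h3 : ‖f x - f y‖ ^ 2 ≤ (Real.sqrt ε * R) ^ 2 := pow_le_pow_left₀ (norm_nonneg _) h2 2
    rw [mul_pow, Real.sq_sqrt hε.le] at h3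
    have h4 : ε * R ^ 2 ≤ ε * (‖x‖ ^ 2 + ‖y‖ ^ 2) := mul_le_mul_of_nonneg_left hRs hε.le
    have h5 : 0 ≤ (2 * K / η) ^ 2 * ‖x - y‖ ^ 2 := by positivity
    linarith
  · have h2 : ‖f x - f y‖ ≤ 2 * K / η * ‖x - y‖ := by
      have h3 : ‖f x‖ ≤ K * R := (hb x).trans (mul_le_mul_of_nonneg_left (le_max_left _ _) hK.le)
      have h4 : ‖f y‖ ≤ K * R := (hb y).trans (mul_le_mul_of_nonneg_left (le_max_right _ _) hK.le)
      have h5 : ‖f x - f y‖ ≤ 2 * K * R := (norm_sub_le _ _).trans (by linarith)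
      refine h5.trans ?_
      rw [div_mul_eq_mul_div, le_div_iff₀ hη]
      have h6 : 2 * K * (η * R) ≤ 2 * K * ‖x - y‖ := mul_le_mul_of_nonneg_left h1.le (by positivity)
      linarith
    have h3 : ‖f x - f y‖ ^ 2 ≤ (2 * K / η * ‖x - y‖) ^ 2 := pow_le_pow_left₀ (norm_nonneg _) h2 2
    rw [mul_pow] at h3
    have h5 : 0 ≤ ε * (‖x‖ ^ 2 + ‖y‖ ^ 2) := by positivity
    linarith

theorem HU.comp {f : E → F} {g : F → G} (hg : HU g) (hf : HU f) : HU fun x => g (f x) := by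
  refine ⟨fun t ht x => by rw [hf.hom t ht, hg.hom t ht], fun ε hε => ?_⟩
  obtain ⟨K, hK, hb⟩ := hf.bdd
  obtain ⟨η, hη, h⟩ := hg.scaled (ε := ε / K) (by positivity)
  obtain ⟨δ, hδ, h'⟩ := hf.uc (η * K) (by positivity)
  refine ⟨δ, hδ, fun x y hx hy hxy => ?_⟩
  have h1 := h K (f x) (f y) ((hb x).trans (by nlinarith)) ((hb y).trans (by nlinarith))
    (h' x y hx hy hxy)
  rwa [div_mul_cancel₀ _ hK.ne'] at h1

theorem HU.id : HU (fun x : E => x) :=
  ⟨fun _ _ _ => rfl, fun ε hε => ⟨ε, hε, fun _ _ _ _ h => h⟩⟩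

theorem HU.clm (T : E →L[ℝ] F) : HU fun x => T x := by
  refine ⟨fun t _ x => map_smul T t x, fun ε hε => ?_⟩
  refine ⟨ε / (‖T‖ + 1), by positivity, fun x y _ _ h => ?_⟩
  rw [← map_sub]
  refine (T.le_opNorm _).trans ?_
  have h1 : (‖T‖ + 1) * ‖x - y‖ ≤ ε := by
    rw [le_div_iff₀ (by positivity)] at h
    linarith
  have h2 := norm_nonneg (x - y)
  linarith

theorem HU.prodMk {f : E → F} {g : E → G} (hf : HU f) (hg : HU g) : HU fun x => (f x, g x) := by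
  refine ⟨fun t ht x => by rw [hf.hom t ht, hg.hom t ht]; rfl, fun ε hε => ?_⟩
  obtain ⟨δ, hδ, h⟩ := hf.uc ε hε
  obtain ⟨δ', hδ', h'⟩ := hg.uc ε hε
  refine ⟨min δ δ', lt_min hδ hδ', fun x y hx hy hxy => ?_⟩
  rw [Prod.mk_sub_mk, Prod.norm_mk]
  exact max_le (h x y hx hy (hxy.trans (min_le_left _ _))) (h' x y hx hy (hxy.trans (min_le_right _ _)))

theorem HU.add {f g : E → F} (hf : HU f) (hg : HU g) : HU fun x => f x + g x := by
  refine ⟨fun t ht x => by rw [hf.hom t ht, hg.hom t ht, smul_add], fun ε hε => ?_⟩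
  obtain ⟨δ, hδ, h⟩ := hf.uc (ε / 2) (by positivity)
  obtain ⟨δ', hδ', h'⟩ := hg.uc (ε / 2) (by positivity)
  refine ⟨min δ δ', lt_min hδ hδ', fun x y hx hy hxy => ?_⟩
  have h1 := h x y hx hy (hxy.trans (min_le_left _ _))
  have h2 := h' x y hx hy (hxy.trans (min_le_right _ _))
  have h3 : f x + g x - (f y + g y) = (f x - f y) + (g x - g y) := by abel
  rw [h3]
  exact (norm_add_le _ _).trans (by linarith)

theorem HU.sub {f g : E → F} (hf : HU f) (hg : HU g) : HU fun x => f x - g x := by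
  refine ⟨fun t ht x => by rw [hf.hom t ht, hg.hom t ht, smul_sub], fun ε hε => ?_⟩
  obtain ⟨δ, hδ, h⟩ := hf.uc (ε / 2) (by positivity)
  obtain ⟨δ', hδ', h'⟩ := hg.uc (ε / 2) (by positivity)
  refine ⟨min δ δ', lt_min hδ hδ', fun x y hx hy hxy => ?_⟩
  have h1 := h x y hx hy (hxy.trans (min_le_left _ _))
  have h2 := h' x y hx hy (hxy.trans (min_le_right _ _))
  have h3 : f x - g x - (f y - g y) = (f x - f y) - (g x - g y) := by abel
  rw [h3]
  exact (norm_sub_le _ _).trans (by linarith)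

end defs

/-- there is a positively homogeneous bijection which is, together with its inverse, uniformly
continuous on the unit ball -/
def HE (E F : Type) [NormedAddCommGroup E] [NormedSpace ℝ E] [NormedAddCommGroup F]
    [NormedSpace ℝ F] : Prop :=
  ∃ (f : E → F) (g : F → E), HU f ∧ HU g ∧ (∀ x, g (f x) = x) ∧ ∀ y, f (g y) = y

section equiv
variable {E F G H : Type} [NormedAddCommGroup E] [NormedSpace ℝ E] [NormedAddCommGroup F]
  [NormedSpace ℝ F] [NormedAddCommGroup G] [NormedSpace ℝ G] [NormedAddCommGroup H] [NormedSpace ℝ H]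

theorem HE.refl (E : Type) [NormedAddCommGroup E] [NormedSpace ℝ E] : HE E E :=
  ⟨fun x => x, fun x => x, HU.id, HU.id, fun _ => rfl, fun _ => rfl⟩

theorem HE.symm (h : HE E F) : HE F E := by
  obtain ⟨f, g, hf, hg, h1, h2⟩ := h
  exact ⟨g, f, hg, hf, h2, h1⟩

theorem HE.trans (h : HE E F) (h' : HE F G) : HE E G := by
  obtain ⟨f, g, hf, hg, h1, h2⟩ := h
  obtain ⟨f', g', hf', hg', h1', h2'⟩ := h'
  refine ⟨fun x => f' (f x), fun z => g (g' z), hf'.comp hf, hg.comp hg', fun x => ?_, fun z => ?_⟩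
  · simp only [h1', h1]
  · simp only [h2, h2']

theorem HE.of_clm (T : E →L[ℝ] F) (S : F →L[ℝ] E) (h1 : ∀ x, S (T x) = x) (h2 : ∀ y, T (S y) = y) :
    HE E F :=
  ⟨fun x => T x, fun y => S y, HU.clm T, HU.clm S, h1, h2⟩

theorem HE.of_equiv (T : E ≃L[ℝ] F) : HE E F :=
  HE.of_clm (T : E →L[ℝ] F) (T.symm : F →L[ℝ] E) (fun x => by simp) fun y => by simp

theorem HE.prod (h : HE E F) (h' : HE G H) : HE (E × G) (F × H) := by
  obtain ⟨f, g, hf, hg, h1, h2⟩ := h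
  obtain ⟨f', g', hf', hg', h1', h2'⟩ := h'
  refine ⟨fun x => (f x.1, f' x.2), fun y => (g y.1, g' y.2), ?_, ?_, fun x => ?_, fun y => ?_⟩
  · exact (hf.comp (HU.clm (ContinuousLinearMap.fst ℝ E G))).prodMk
      (hf'.comp (HU.clm (ContinuousLinearMap.snd ℝ E G)))
  · exact (hg.comp (HU.clm (ContinuousLinearMap.fst ℝ F H))).prodMk
      (hg'.comp (HU.clm (ContinuousLinearMap.snd ℝ F H)))
  · simp only [h1, h1']
  · simp only [h2, h2']

theorem HE.comm (E F : Type) [NormedAddCommGroup E] [NormedSpace ℝ E] [NormedAddCommGroup F]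
    [NormedSpace ℝ F] : HE (E × F) (F × E) :=
  HE.of_equiv (ContinuousLinearEquiv.prodComm ℝ E F)

theorem HE.assoc (E F G : Type) [NormedAddCommGroup E] [NormedSpace ℝ E] [NormedAddCommGroup F]
    [NormedSpace ℝ F] [NormedAddCommGroup G] [NormedSpace ℝ G] : HE ((E × F) × G) (E × (F × G)) :=
  HE.of_equiv (ContinuousLinearEquiv.prodAssoc ℝ E F G)

/-- radial correction -/
private noncomputable def nr (f : E → F) (x : E) : F := (‖x‖ / ‖f x‖) • f x

private theorem nr_norm {f : E → F} (hf : HU f) (h0 : ∀ x, f x = 0 → x = 0) (x : E) :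
    ‖nr f x‖ = ‖x‖ := by
  unfold nr
  rcases eq_or_ne x 0 with hx | hx
  · rw [hx, hf.zero, smul_zero, norm_zero, norm_zero]
  · have h1 : ‖f x‖ ≠ 0 := fun h => hx (h0 x (norm_eq_zero.1 h))
    rw [norm_smul, Real.norm_of_nonneg (by positivity), div_mul_cancel₀ _ h1]

private theorem nr_inv {f : E → F} {g : F → E} (hf : HU f) (hg : HU g) (h1 : ∀ x, g (f x) = x)
    (h2 : ∀ y, f (g y) = y) (x : E) : nr g (nr f x) = x := by
  have h0 : ∀ x, f x = 0 → x = 0 := fun x hx => by rw [← h1 x, hx, hg.zero]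
  have hn := nr_norm hf h0 x
  rcases eq_or_ne x 0 with hx | hx
  · rw [hx]
    unfold nr
    rw [hf.zero, smul_zero, hg.zero, smul_zero]
  · have h3 : ‖f x‖ ≠ 0 := fun h => hx (h0 x (norm_eq_zero.1 h))
    have hx0 : ‖x‖ ≠ 0 := norm_ne_zero_iff.2 hx
    have h4 : g (nr f x) = (‖x‖ / ‖f x‖) • x := by
      unfold nr
      rw [hg.hom _ (by positivity), h1]
    unfold nr at hn ⊢
    rw [hn]
    unfold nr at h4
    rw [h4, norm_smul, Real.norm_of_nonneg (by positivity), smul_smul]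
    have h5 : ‖x‖ / (‖x‖ / ‖f x‖ * ‖x‖) * (‖x‖ / ‖f x‖) = 1 := by
      field_simp
    rw [h5, one_smul]

private theorem nr_uc {f : E → F} {g : F → E} (hf : HU f) (hg : HU g) (h1 : ∀ x, g (f x) = x)
    (ε : ℝ) (hε : 0 < ε) : ∃ δ > 0, ∀ x y : E, ‖x‖ ≤ 1 → ‖y‖ ≤ 1 → ‖x - y‖ ≤ δ →
      ‖nr f x - nr f y‖ ≤ ε := by
  have h0 : ∀ x, f x = 0 → x = 0 := fun x hx => by rw [← h1 x, hx, hg.zero]
  obtain ⟨K, hK, hb⟩ := hg.bdd
  obtain ⟨δ, hδ, h⟩ := hf.uc (ε ^ 2 / (16 * K)) (by positivity)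
  refine ⟨min δ (ε / 4), lt_min hδ (by positivity), fun x y hx hy hxy => ?_⟩
  have hd1 := hxy.trans (min_le_left _ _)
  have hd2 := hxy.trans (min_le_right _ _)
  have hxy' : ‖y‖ ≤ ‖x‖ + ‖x - y‖ := by
    have := norm_sub_norm_le y x
    rw [norm_sub_rev] at this
    linarith
  rcases le_or_gt ‖x‖ (ε / 4) with h2 | h2
  · refine (norm_sub_le _ _).trans ?_
    rw [nr_norm hf h0, nr_norm hf h0]
    linarith
  · rcases eq_or_ne y 0 with hy0 | hy0
    · rw [hy0, sub_zero] at hd2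
      linarith
    · have hx0 : x ≠ 0 := fun h => by
        rw [h, norm_zero] at h2
        linarith
      have hfx : 0 < ‖f x‖ := norm_pos_iff.2 fun h => hx0 (h0 x h)
      have hfy : 0 < ‖f y‖ := norm_pos_iff.2 fun h => hy0 (h0 y h)
      have h3 : ‖x‖ ≤ K * ‖f x‖ := by
        have h4 := hb (f x)
        rwa [h1] at h4
      have h5 := h x y hx hy hd1
      have h6 : nr f x - nr f y = ((‖x‖ - ‖y‖) / ‖f x‖) • f x + (‖y‖ / ‖f x‖) • (f x - f y) +
          (‖y‖ / ‖f x‖ - ‖y‖ / ‖f y‖) • f y := by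
        unfold nr
        module
      have h7 : ‖((‖x‖ - ‖y‖) / ‖f x‖) • f x‖ ≤ ‖x - y‖ := by
        rw [norm_smul, Real.norm_eq_abs, abs_div, abs_of_pos hfx, div_mul_cancel₀ _ hfx.ne']
        exact abs_norm_sub_norm_le x y
      have h8 : ‖(‖y‖ / ‖f x‖) • (f x - f y)‖ ≤ ‖f x - f y‖ / ‖f x‖ := by
        rw [norm_smul, Real.norm_of_nonneg (by positivity), div_mul_eq_mul_div]
        refine div_le_div_of_nonneg_right ?_ hfx.le
        nlinarith [norm_nonneg (f x - f y)]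
      have h9 : ‖(‖y‖ / ‖f x‖ - ‖y‖ / ‖f y‖) • f y‖ ≤ ‖f x - f y‖ / ‖f x‖ := by
        have e : ‖y‖ / ‖f x‖ - ‖y‖ / ‖f y‖ = ‖y‖ * (‖f y‖ - ‖f x‖) / (‖f x‖ * ‖f y‖) := by
          field_simp
        rw [e, norm_smul, Real.norm_eq_abs, abs_div, abs_mul, abs_of_pos (mul_pos hfx hfy),
          abs_of_nonneg (norm_nonneg y), ← div_div, div_mul_cancel₀ _ hfy.ne']
        refine div_le_div_of_nonneg_right ?_ hfx.le
        have h10 : |‖f y‖ - ‖f x‖| ≤ ‖f x - f y‖ := by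
          rw [norm_sub_rev]
          exact abs_norm_sub_norm_le _ _
        nlinarith [abs_nonneg (‖f y‖ - ‖f x‖)]
      have h11 : ‖f x - f y‖ / ‖f x‖ ≤ ε / 4 := by
        rw [div_le_iff₀ hfx]
        have h12 : ε / 4 ≤ K * ‖f x‖ := h2.le.trans h3
        have h13 : ε ^ 2 / (16 * K) ≤ ε / 4 * ‖f x‖ := by
          rw [div_le_iff₀ (by positivity)]
          nlinarith
        exact h5.trans h13
      rw [h6]
      refine (norm_add_le _ _).trans ((add_le_add_left (norm_add_le _ _) _).trans ?_)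
      linarith

/-- equivalent spaces have uniformly homeomorphic unit balls -/
theorem HE.ball (h : HE E F) :
    Nonempty (UniformEquiv (closedBall (0 : E) 1) (closedBall (0 : F) 1)) := by
  obtain ⟨f, g, hf, hg, h1, h2⟩ := h
  have h0 : ∀ x, f x = 0 → x = 0 := fun x hx => by rw [← h1 x, hx, hg.zero]
  have h0' : ∀ y, g y = 0 → y = 0 := fun y hy => by rw [← h2 y, hy, hf.zero]
  refine ⟨⟨⟨fun x => ⟨nr f x, ?_⟩, fun y => ⟨nr g y, ?_⟩, fun x => ?_, fun y => ?_⟩, ?_, ?_⟩⟩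
  · have hx := x.2
    rw [mem_closedBall_zero_iff] at hx ⊢
    rwa [nr_norm hf h0]
  · have hy := y.2
    rw [mem_closedBall_zero_iff] at hy ⊢
    rwa [nr_norm hg h0']
  · exact Subtype.ext (nr_inv hf hg h1 h2 x)
  · exact Subtype.ext (nr_inv hg hf h2 h1 y)
  · rw [Metric.uniformContinuous_iff]
    intro ε hε
    obtain ⟨δ, hδ, h⟩ := nr_uc hf hg h1 (ε / 2) (by positivity)
    refine ⟨δ, hδ, fun {x y} hxy => ?_⟩
    rw [Subtype.dist_eq, dist_eq_norm] at hxy ⊢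
    have h3 := h x y (mem_closedBall_zero_iff.1 x.2) (mem_closedBall_zero_iff.1 y.2) hxy.le
    exact h3.trans_lt (by linarith)
  · rw [Metric.uniformContinuous_iff]
    intro ε hε
    obtain ⟨δ, hδ, h⟩ := nr_uc hg hf h2 (ε / 2) (by positivity)
    refine ⟨δ, hδ, fun {x y} hxy => ?_⟩
    rw [Subtype.dist_eq, dist_eq_norm] at hxy ⊢
    have h3 := h x y (mem_closedBall_zero_iff.1 x.2) (mem_closedBall_zero_iff.1 y.2) hxy.le
    exact h3.trans_lt (by linarith)

end equiv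

end Pool.Agent.UB
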