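import Pool.Agent.Lib_MP_2a50c0.Scalar

/-!
# The Mazur map between the spaces `L_p` and the uniform convexity of `L_p`
-/

set_option autoImplicit false

open MeasureTheory Filter Topology
open scoped ENNReal

namespace Pool.Agent.UB

section lp
variable {α : Type} [MeasurableSpace α] {μ : Measure α} {p q : ℝ≥0∞}

theorem p_ne_zero (p : ℝ≥0∞) [hp : Fact (1 ≤ p)] : p ≠ 0 :=
  (lt_of_lt_of_le one_pos hp.out).ne'

theorem p_pos (p : ℝ≥0∞) [Fact (1 ≤ p)] (hp : p ≠ ∞) : 0 < p.toReal :=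
  ENNReal.toReal_pos (p_ne_zero p) hp

theorem Lp_int [Fact (1 ≤ p)] (hp : p ≠ ∞) (f : Lp ℝ p μ) :
    Integrable (fun x => |f x| ^ p.toReal) μ := by
  have h := (Lp.memLp f).integrable_norm_rpow (p_ne_zero p) hp
  simpa only [Real.norm_eq_abs] using h

theorem Lp_norm [Fact (1 ≤ p)] (hp : p ≠ ∞) (f : Lp ℝ p μ) :
    ‖f‖ ^ p.toReal = ∫ x, |f x| ^ p.toReal ∂μ := by
  have h0 : 0 ≤ ∫ x, ‖f x‖ ^ p.toReal ∂μ :=
    integral_nonneg fun x => Real.rpow_nonneg (norm_nonneg _) _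
  rw [Lp.norm_def, MemLp.eLpNorm_eq_integral_rpow_norm (p_ne_zero p) hp (Lp.memLp f),
    ENNReal.toReal_ofReal (Real.rpow_nonneg h0 _), ← Real.rpow_mul h0,
    inv_mul_cancel₀ (p_pos p hp).ne', Real.rpow_one]
  simp only [Real.norm_eq_abs]

theorem mz_mem [Fact (1 ≤ p)] [Fact (1 ≤ q)] (hp : p ≠ ∞) (hq : q ≠ ∞) (f : Lp ℝ p μ) :
    MemLp (fun x => ps (p.toReal / q.toReal) (f x)) q μ := by
  have hP := p_pos p hp
  have hQ := p_pos q hq
  rw [← integrable_norm_rpow_iff ((ps_cont (by positivity)).comp_aestronglyMeasurable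
    (Lp.aestronglyMeasurable f)) (p_ne_zero q) hq]
  refine (Lp_int hp f).congr (ae_of_all _ fun x => ?_)
  show |f x| ^ p.toReal = ‖ps (p.toReal / q.toReal) (f x)‖ ^ q.toReal
  rw [Real.norm_eq_abs, ps_abs (by positivity), ← Real.rpow_mul (abs_nonneg _),
    div_mul_cancel₀ _ hQ.ne']

/-- the Mazur map -/
noncomputable def mz [Fact (1 ≤ p)] [Fact (1 ≤ q)] (hp : p ≠ ∞) (hq : q ≠ ∞) (f : Lp ℝ p μ) :
    Lp ℝ q μ := (mz_mem hp hq f).toLp _

theorem mz_coe [Fact (1 ≤ p)] [Fact (1 ≤ q)] (hp : p ≠ ∞) (hq : q ≠ ∞) (f : Lp ℝ p μ) :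
    mz hp hq f =ᵐ[μ] fun x => ps (p.toReal / q.toReal) (f x) := (mz_mem hp hq f).coeFn_toLp

theorem mz_norm [Fact (1 ≤ p)] [Fact (1 ≤ q)] (hp : p ≠ ∞) (hq : q ≠ ∞) (f : Lp ℝ p μ)
    (hf : ‖f‖ = 1) : ‖mz hp hq f‖ = 1 := by
  have hP := p_pos p hp
  have hQ := p_pos q hq
  have h1 : ‖mz hp hq f‖ ^ q.toReal = 1 := by
    rw [Lp_norm hq]
    have h2 : ∫ x, |mz hp hq f x| ^ q.toReal ∂μ = ∫ x, |f x| ^ p.toReal ∂μ := by
      refine integral_congr_ae ?_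
      filter_upwards [mz_coe hp hq f] with x hx
      rw [hx, ps_abs (by positivity), ← Real.rpow_mul (abs_nonneg _), div_mul_cancel₀ _ hQ.ne']
    rw [h2, ← Lp_norm hp, hf, Real.one_rpow]
  have h2 : (‖mz hp hq f‖ ^ q.toReal) ^ (q.toReal)⁻¹ = 1 := by rw [h1, Real.one_rpow]
  rwa [← Real.rpow_mul (norm_nonneg _), mul_inv_cancel₀ hQ.ne', Real.rpow_one] at h2

theorem mz_inv [Fact (1 ≤ p)] [Fact (1 ≤ q)] (hp : p ≠ ∞) (hq : q ≠ ∞) (f : Lp ℝ p μ) :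
    mz hq hp (mz hp hq f) = f := by
  have hP := p_pos p hp
  have hQ := p_pos q hq
  refine Lp.ext ?_
  filter_upwards [mz_coe hp hq f, mz_coe hq hp (mz hp hq f)] with x h1 h2
  rw [h2, h1]
  refine ps_ps (by positivity) (by positivity) ?_ _
  field_simp

theorem mz_uc [Fact (1 ≤ p)] [Fact (1 ≤ q)] (hp : p ≠ ∞) (hq : q ≠ ∞) (ε : ℝ) (hε : 0 < ε) :
    ∃ δ > 0, ∀ f g : Lp ℝ p μ, ‖f‖ = 1 → ‖g‖ = 1 → ‖f - g‖ ≤ δ →
      ‖mz hp hq f - mz hp hq g‖ ≤ ε := by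
  have hP := p_pos p hp
  have hQ := p_pos q hq
  obtain ⟨C, hC, h⟩ := ps_ineq hP hQ (ε := ε ^ q.toReal / 4) (by positivity)
  refine ⟨(ε ^ q.toReal / (2 * C)) ^ (p.toReal)⁻¹, by positivity, fun f g hf hg hfg => ?_⟩
  have h1 : ‖mz hp hq f - mz hp hq g‖ ^ q.toReal ≤
      ε ^ q.toReal / 4 * (‖f‖ ^ p.toReal + ‖g‖ ^ p.toReal) + C * ‖f - g‖ ^ p.toReal := by
    have hI1 : Integrable (fun x => |f x| ^ p.toReal + |g x| ^ p.toReal) μ :=
      (Lp_int hp f).add (Lp_int hp g)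
    have hI2 : Integrable (fun x => ε ^ q.toReal / 4 * (|f x| ^ p.toReal + |g x| ^ p.toReal)) μ :=
      hI1.const_mul _
    have hI3 : Integrable (fun x => C * |(f - g : Lp ℝ p μ) x| ^ p.toReal) μ :=
      (Lp_int hp (f - g)).const_mul _
    rw [Lp_norm hq, Lp_norm hp f, Lp_norm hp g, Lp_norm hp (f - g),
      ← integral_add (Lp_int hp f) (Lp_int hp g), ← integral_const_mul, ← integral_const_mul,
      ← integral_add hI2 hI3]
    refine integral_mono_ae (Lp_int hq _) (hI2.add hI3) ?_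
    filter_upwards [mz_coe hp hq f, mz_coe hp hq g, Lp.coeFn_sub (mz hp hq f) (mz hp hq g),
      Lp.coeFn_sub f g] with x h2 h3 h4 h5
    show |(mz hp hq f - mz hp hq g : Lp ℝ q μ) x| ^ q.toReal ≤
      ε ^ q.toReal / 4 * (|f x| ^ p.toReal + |g x| ^ p.toReal) + C * |(f - g : Lp ℝ p μ) x| ^ p.toReal
    rw [h4, h5, Pi.sub_apply, Pi.sub_apply, h2, h3]
    exact h (f x) (g x)
  rw [hf, hg, Real.one_rpow] at h1
  have h2 : ‖f - g‖ ^ p.toReal ≤ ε ^ q.toReal / (2 * C) := by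
    have h3 := Real.rpow_le_rpow (norm_nonneg _) hfg hP.le
    rwa [← Real.rpow_mul (by positivity), inv_mul_cancel₀ hP.ne', Real.rpow_one] at h3
  have h4 : C * ‖f - g‖ ^ p.toReal ≤ ε ^ q.toReal / 2 := by
    have h5 := mul_le_mul_of_nonneg_left h2 hC.le
    have h6 : C * (ε ^ q.toReal / (2 * C)) = ε ^ q.toReal / 2 := by field_simp
    linarith
  have h7 : ‖mz hp hq f - mz hp hq g‖ ^ q.toReal ≤ ε ^ q.toReal := by linarith
  exact (Real.rpow_le_rpow_iff (norm_nonneg _) hε.le hQ).1 h7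

/-- Mazur: the spaces `L_p`, `1 ≤ p < ∞`, are equivalent -/
theorem HE.mazur (μ : Measure α) (p q : ℝ≥0∞) [Fact (1 ≤ p)] [Fact (1 ≤ q)] (hp : p ≠ ∞)
    (hq : q ≠ ∞) : HE (Lp ℝ p μ) (Lp ℝ q μ) :=
  HE.of_sphere (Φ := mz hp hq) (Ψ := mz hq hp) (mz_norm hp hq) (mz_norm hq hp)
    (fun f _ => mz_inv hp hq f) (fun g _ => mz_inv hq hp g) (mz_uc hp hq) (mz_uc hq hp)

/-- `L_p` is uniformly convex, `1 < p < ∞` -/
theorem Lp_uniformConvex (μ : Measure α) (p : ℝ≥0∞) [Fact (1 ≤ p)] (h1p : 1 < p) (hp : p ≠ ∞) :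
    UniformConvexSpace (Lp ℝ p μ) := by
  have hP := p_pos p hp
  have hP1 : 1 < p.toReal := by
    have h := (ENNReal.toReal_lt_toReal ENNReal.one_ne_top hp).2 h1p
    simpa using h
  refine ⟨fun ε hε => ?_⟩
  obtain ⟨c, hc, h⟩ := conv_ineq hP1 (κ := ε ^ p.toReal / 4) (by positivity)
  set η : ℝ := c * ε ^ p.toReal / 2 with hη
  have hη0 : 0 < η := by positivity
  have hm0 : 0 ≤ max (1 - η) 0 := le_max_right _ _
  have hm1 : max (1 - η) 0 < 1 := max_lt (by linarith) one_pos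
  have hr : (max (1 - η) 0) ^ (p.toReal)⁻¹ < 1 := Real.rpow_lt_one hm0 hm1 (by positivity)
  refine ⟨2 * (1 - (max (1 - η) 0) ^ (p.toReal)⁻¹), by linarith, fun f hf g hg hfg => ?_⟩
  have key : ‖(1 / 2 : ℝ) • (f + g)‖ ^ p.toReal + c * ‖f - g‖ ^ p.toReal ≤
      (1 / 2 + c * (ε ^ p.toReal / 4)) * (‖f‖ ^ p.toReal + ‖g‖ ^ p.toReal) := by
    have hI1 : Integrable (fun x => |f x| ^ p.toReal + |g x| ^ p.toReal) μ :=
      (Lp_int hp f).add (Lp_int hp g)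
    have hI2 : Integrable (fun x => (1 / 2 + c * (ε ^ p.toReal / 4)) *
      (|f x| ^ p.toReal + |g x| ^ p.toReal)) μ := hI1.const_mul _
    have hI3 : Integrable (fun x => c * |(f - g : Lp ℝ p μ) x| ^ p.toReal) μ :=
      (Lp_int hp (f - g)).const_mul _
    have hI4 := Lp_int hp ((1 / 2 : ℝ) • (f + g))
    rw [Lp_norm hp, Lp_norm hp f, Lp_norm hp g, Lp_norm hp (f - g),
      ← integral_add (Lp_int hp f) (Lp_int hp g), ← integral_const_mul, ← integral_const_mul,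
      ← integral_add hI4 hI3]
    refine integral_mono_ae (hI4.add hI3) hI2 ?_
    filter_upwards [Lp.coeFn_smul (1 / 2 : ℝ) (f + g), Lp.coeFn_add f g, Lp.coeFn_sub f g]
      with x h2 h3 h4
    show |((1 / 2 : ℝ) • (f + g) : Lp ℝ p μ) x| ^ p.toReal + c * |(f - g : Lp ℝ p μ) x| ^ p.toReal ≤
      (1 / 2 + c * (ε ^ p.toReal / 4)) * (|f x| ^ p.toReal + |g x| ^ p.toReal)
    rw [h2, h4, Pi.smul_apply, h3, Pi.add_apply, Pi.sub_apply, smul_eq_mul]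
    have h5 : 1 / 2 * (f x + g x) = (f x + g x) / 2 := by ring
    rw [h5]
    exact h (f x) (g x)
  rw [hf, hg, Real.one_rpow] at key
  have h2 : ε ^ p.toReal ≤ ‖f - g‖ ^ p.toReal := Real.rpow_le_rpow hε.le hfg hP.le
  have h3 := mul_le_mul_of_nonneg_left h2 hc.le
  have h4 : ‖(1 / 2 : ℝ) • (f + g)‖ ^ p.toReal ≤ max (1 - η) 0 := by
    refine le_trans ?_ (le_max_left _ _)
    rw [hη]
    linarith
  have h5 := Real.rpow_le_rpow (Real.rpow_nonneg (norm_nonneg _) _) h4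
    (inv_nonneg.2 hP.le)
  rw [← Real.rpow_mul (norm_nonneg _), mul_inv_cancel₀ hP.ne', Real.rpow_one, norm_smul,
    Real.norm_of_nonneg (by norm_num)] at h5
  linarith

end lp

end Pool.Agent.UB
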