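import Pool.Agent.Lib_MP_2a50c0.HE

/-!
# The scalar Mazur map; extension of maps of spheres; a pointwise convexity inequality
-/

set_option autoImplicit false

open Filter Topology

namespace Pool.Agent.UB

/-- `sign a |a| ^ θ` -/
noncomputable def ps (θ a : ℝ) : ℝ := (max a 0) ^ θ - (max (-a) 0) ^ θ

theorem ps_of_nonneg {θ a : ℝ} (hθ : 0 < θ) (ha : 0 ≤ a) : ps θ a = a ^ θ := by
  unfold ps
  rw [max_eq_left ha, max_eq_right (by linarith), Real.zero_rpow hθ.ne', sub_zero]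

theorem ps_of_nonpos {θ a : ℝ} (hθ : 0 < θ) (ha : a ≤ 0) : ps θ a = -(-a) ^ θ := by
  unfold ps
  rw [max_eq_right ha, max_eq_left (by linarith), Real.zero_rpow hθ.ne', zero_sub]

theorem ps_abs {θ : ℝ} (hθ : 0 < θ) (a : ℝ) : |ps θ a| = |a| ^ θ := by
  rcases le_total 0 a with ha | ha
  · rw [ps_of_nonneg hθ ha, abs_of_nonneg ha, abs_of_nonneg (Real.rpow_nonneg ha θ)]
  · rw [ps_of_nonpos hθ ha, abs_of_nonpos ha, abs_neg,
      abs_of_nonneg (Real.rpow_nonneg (by linarith) θ)]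

theorem ps_cont {θ : ℝ} (hθ : 0 < θ) : Continuous (ps θ) := by
  unfold ps
  exact ((Real.continuous_rpow_const hθ.le).comp (continuous_id.max continuous_const)).sub
    ((Real.continuous_rpow_const hθ.le).comp (continuous_neg.max continuous_const))

theorem ps_smul {θ t : ℝ} (ht : 0 ≤ t) (a : ℝ) : ps θ (t * a) = t ^ θ * ps θ a := by
  unfold ps
  have h1 : max (t * a) 0 = t * max a 0 := by
    rw [mul_max_of_nonneg _ _ ht, mul_zero]
  have h2 : max (-(t * a)) 0 = t * max (-a) 0 := by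
    rw [mul_max_of_nonneg _ _ ht, mul_zero, mul_neg]
  rw [h1, h2, Real.mul_rpow ht (le_max_right _ _), Real.mul_rpow ht (le_max_right _ _), mul_sub]

theorem ps_ps {θ κ : ℝ} (hθ : 0 < θ) (hκ : 0 < κ) (h : θ * κ = 1) (a : ℝ) : ps κ (ps θ a) = a := by
  rcases le_total 0 a with ha | ha
  · rw [ps_of_nonneg hθ ha, ps_of_nonneg hκ (Real.rpow_nonneg ha θ), ← Real.rpow_mul ha, h,
      Real.rpow_one]
  · have ha' : 0 ≤ -a := by linarith
    rw [ps_of_nonpos hθ ha, ps_of_nonpos hκ (by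
      have := Real.rpow_nonneg ha' θ
      linarith), neg_neg, ← Real.rpow_mul ha', h, Real.rpow_one, neg_neg]

theorem ps_ineq {P Q : ℝ} (hP : 0 < P) (hQ : 0 < Q) {ε : ℝ} (hε : 0 < ε) : ∃ C > 0, ∀ a b : ℝ,
    |ps (P / Q) a - ps (P / Q) b| ^ Q ≤ ε * (|a| ^ P + |b| ^ P) + C * |a - b| ^ P := by
  have hθ : 0 < P / Q := by positivity
  have huc : UniformContinuousOn (ps (P / Q)) (Set.Icc (-1) 1) :=
    isCompact_Icc.uniformContinuousOn_of_continuous (ps_cont hθ).continuousOn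
  rw [Metric.uniformContinuousOn_iff] at huc
  obtain ⟨η, hη, h⟩ := huc (ε ^ (1 / Q)) (by positivity)
  refine ⟨2 ^ Q * (η⁻¹) ^ P, by positivity, fun a b => ?_⟩
  set R := max |a| |b| with hR
  have hR0 : 0 ≤ R := (abs_nonneg a).trans (le_max_left _ _)
  have hRP : R ^ P ≤ |a| ^ P + |b| ^ P := by
    rcases max_choice |a| |b| with h1 | h1
    · rw [hR, h1]
      have := Real.rpow_nonneg (abs_nonneg b) P
      linarith
    · rw [hR, h1]
      have := Real.rpow_nonneg (abs_nonneg a) P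
      linarith
  have hab : 0 ≤ |a - b| := abs_nonneg _
  have hs : 0 ≤ |a| ^ P + |b| ^ P :=
    add_nonneg (Real.rpow_nonneg (abs_nonneg a) P) (Real.rpow_nonneg (abs_nonneg b) P)
  have hθQ : P / Q * Q = P := div_mul_cancel₀ _ hQ.ne'
  rcases hR0.eq_or_lt with h0 | h0
  · have ha : |a| = 0 := le_antisymm ((le_max_left _ _).trans h0.symm.le) (abs_nonneg _)
    have hb : |b| = 0 := le_antisymm ((le_max_right _ _).trans h0.symm.le) (abs_nonneg _)
    rw [abs_eq_zero.1 ha, abs_eq_zero.1 hb, sub_self, abs_zero, Real.zero_rpow hQ.ne']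
    positivity
  · rcases lt_or_ge |a - b| (η * R) with h1 | h1
    · have hx : ∀ c : ℝ, |c| ≤ R → c / R ∈ Set.Icc (-1 : ℝ) 1 := fun c hc => by
        rw [Set.mem_Icc, ← abs_le, abs_div, abs_of_pos h0, div_le_one h0]
        exact hc
      have h2 := h (a / R) (hx a (le_max_left _ _)) (b / R) (hx b (le_max_right _ _)) (by
        rw [Real.dist_eq, ← sub_div, abs_div, abs_of_pos h0, div_lt_iff₀ h0]
        exact h1)
      have h3 : ∀ c : ℝ, ps (P / Q) c = R ^ (P / Q) * ps (P / Q) (c / R) := fun c => by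
        rw [← ps_smul hR0, mul_div_cancel₀ _ h0.ne']
      rw [Real.dist_eq] at h2
      have h4 : |ps (P / Q) a - ps (P / Q) b| ≤ R ^ (P / Q) * ε ^ (1 / Q) := by
        rw [h3 a, h3 b, ← mul_sub, abs_mul, abs_of_nonneg (Real.rpow_nonneg hR0 _)]
        exact mul_le_mul_of_nonneg_left h2.le (Real.rpow_nonneg hR0 _)
      have h5 := Real.rpow_le_rpow (abs_nonneg _) h4 hQ.le
      rw [Real.mul_rpow (Real.rpow_nonneg hR0 _) (by positivity), ← Real.rpow_mul hR0,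
        ← Real.rpow_mul hε.le, hθQ, one_div_mul_cancel hQ.ne', Real.rpow_one, mul_comm] at h5
      have h6 : 0 ≤ 2 ^ Q * (η⁻¹) ^ P * |a - b| ^ P := by positivity
      have h7 := mul_le_mul_of_nonneg_left hRP hε.le
      linarith
    · have h2 : |ps (P / Q) a - ps (P / Q) b| ≤ 2 * R ^ (P / Q) := by
        refine (abs_sub _ _).trans ?_
        rw [ps_abs hθ, ps_abs hθ, two_mul]
        exact add_le_add (Real.rpow_le_rpow (abs_nonneg _) (le_max_left _ _) hθ.le)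
          (Real.rpow_le_rpow (abs_nonneg _) (le_max_right _ _) hθ.le)
      have h5 := Real.rpow_le_rpow (abs_nonneg _) h2 hQ.le
      rw [Real.mul_rpow (by norm_num) (Real.rpow_nonneg hR0 _), ← Real.rpow_mul hR0, hθQ] at h5
      have h6 : R ≤ η⁻¹ * |a - b| := by
        rw [inv_mul_eq_div, le_div_iff₀ hη, mul_comm]
        exact h1
      have h7 := Real.rpow_le_rpow hR0 h6 hP.le
      rw [Real.mul_rpow (by positivity) hab] at h7
      have h8 : (2 : ℝ) ^ Q * R ^ P ≤ 2 ^ Q * ((η⁻¹) ^ P * |a - b| ^ P) :=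
        mul_le_mul_of_nonneg_left h7 (by positivity)
      have h9 : 0 ≤ ε * (|a| ^ P + |b| ^ P) := by positivity
      linarith

/-! ## Maps of spheres -/

section sphere
variable {E F : Type} [NormedAddCommGroup E] [NormedSpace ℝ E] [NormedAddCommGroup F] [NormedSpace ℝ F]

/-- homogeneous extension of a map of spheres -/
noncomputable def hx (Φ : E → F) (x : E) : F := ‖x‖ • Φ (‖x‖⁻¹ • x)

theorem hx_norm {Φ : E → F} (hΦ : ∀ x, ‖x‖ = 1 → ‖Φ x‖ = 1) (x : E) : ‖hx Φ x‖ = ‖x‖ := by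
  unfold hx
  rcases eq_or_ne x 0 with h | h
  · rw [h, norm_zero, zero_smul, norm_zero]
  · have h1 : ‖‖x‖⁻¹ • x‖ = 1 := by
      rw [norm_smul, norm_inv, norm_norm, inv_mul_cancel₀ (norm_ne_zero_iff.2 h)]
    rw [norm_smul, norm_norm, hΦ _ h1, mul_one]

theorem hx_inv {Φ : E → F} {Ψ : F → E} (hΦ : ∀ x, ‖x‖ = 1 → ‖Φ x‖ = 1)
    (h : ∀ x, ‖x‖ = 1 → Ψ (Φ x) = x) (x : E) : hx Ψ (hx Φ x) = x := by
  have hn := hx_norm hΦ x
  rcases eq_or_ne x 0 with h0 | h0
  · rw [h0]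
    unfold hx
    rw [norm_zero, zero_smul, norm_zero, zero_smul]
  · have hx0 : ‖x‖ ≠ 0 := norm_ne_zero_iff.2 h0
    have h1 : ‖‖x‖⁻¹ • x‖ = 1 := by
      rw [norm_smul, norm_inv, norm_norm, inv_mul_cancel₀ hx0]
    have h2 : hx Ψ (hx Φ x) = ‖x‖ • Ψ (‖x‖⁻¹ • (‖x‖ • Φ (‖x‖⁻¹ • x))) := by
      have e : hx Ψ (hx Φ x) = ‖hx Φ x‖ • Ψ (‖hx Φ x‖⁻¹ • hx Φ x) := rfl
      rw [e, hn]
      rfl
    rw [h2, smul_smul ‖x‖⁻¹, inv_mul_cancel₀ hx0, one_smul, h _ h1, smul_smul,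
      mul_inv_cancel₀ hx0, one_smul]

theorem hx_HU {Φ : E → F} (hΦ : ∀ x, ‖x‖ = 1 → ‖Φ x‖ = 1)
    (huc : ∀ ε > 0, ∃ δ > 0, ∀ x y : E, ‖x‖ = 1 → ‖y‖ = 1 → ‖x - y‖ ≤ δ → ‖Φ x - Φ y‖ ≤ ε) :
    HU (hx Φ) := by
  refine ⟨fun t ht x => ?_, fun ε hε => ?_⟩
  · unfold hx
    rcases ht.eq_or_lt with h0 | h0
    · rw [← h0, zero_smul, zero_smul, norm_zero, zero_smul]
    · rw [norm_smul, Real.norm_of_nonneg ht, smul_smul (t * ‖x‖)⁻¹, smul_smul]
      congr 2
      have h1 : (t * ‖x‖)⁻¹ * t = ‖x‖⁻¹ := by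
        rw [mul_inv]
        field_simp
      rw [h1]
  · obtain ⟨δ, hδ, h⟩ := huc (ε / 4) (by positivity)
    refine ⟨min (ε / 4) (δ * ε / 8), lt_min (by positivity) (by positivity), fun x y hx1 hy1 hxy => ?_⟩
    have hd1 := hxy.trans (min_le_left _ _)
    have hd2 := hxy.trans (min_le_right _ _)
    have hxy' : ‖y‖ ≤ ‖x‖ + ‖x - y‖ := by
      have := norm_sub_norm_le y x
      rw [norm_sub_rev] at this
      linarith
    rcases le_or_gt ‖x‖ (ε / 4) with h2 | h2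
    · refine (norm_sub_le _ _).trans ?_
      rw [hx_norm hΦ, hx_norm hΦ]
      linarith
    · rcases eq_or_ne y 0 with hy0 | hy0
      · rw [hy0, sub_zero] at hd1
        linarith
      · have hx0 : 0 < ‖x‖ := by linarith
        have hy0' : 0 < ‖y‖ := norm_pos_iff.2 hy0
        have hu : ‖‖x‖⁻¹ • x‖ = 1 := by
          rw [norm_smul, norm_inv, norm_norm, inv_mul_cancel₀ hx0.ne']
        have hv : ‖‖y‖⁻¹ • y‖ = 1 := by
          rw [norm_smul, norm_inv, norm_norm, inv_mul_cancel₀ hy0'.ne']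
        have huv : ‖‖x‖⁻¹ • x - ‖y‖⁻¹ • y‖ ≤ 2 * ‖x - y‖ / ‖x‖ := by
          have e : ‖x‖⁻¹ • x - ‖y‖⁻¹ • y = ‖x‖⁻¹ • (x - y) + (‖x‖⁻¹ - ‖y‖⁻¹) • y := by module
          have e1 : ‖‖x‖⁻¹ • (x - y)‖ = ‖x - y‖ / ‖x‖ := by
            rw [norm_smul, norm_inv, norm_norm, inv_mul_eq_div]
          have e2 : ‖(‖x‖⁻¹ - ‖y‖⁻¹) • y‖ ≤ ‖x - y‖ / ‖x‖ := by
            have e3 : ‖x‖⁻¹ - ‖y‖⁻¹ = (‖y‖ - ‖x‖) / (‖x‖ * ‖y‖) := by field_simp
            rw [e3, norm_smul, Real.norm_eq_abs, abs_div, abs_of_pos (mul_pos hx0 hy0'), ← div_div,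
              div_mul_cancel₀ _ hy0'.ne']
            refine div_le_div_of_nonneg_right ?_ hx0.le
            rw [norm_sub_rev]
            exact abs_norm_sub_norm_le y x
          rw [e]
          refine (norm_add_le _ _).trans ?_
          rw [e1]
          have e4 : 2 * ‖x - y‖ / ‖x‖ = ‖x - y‖ / ‖x‖ + ‖x - y‖ / ‖x‖ := by ring
          rw [e4]
          linarith
        have huv' : ‖‖x‖⁻¹ • x - ‖y‖⁻¹ • y‖ ≤ δ := by
          refine huv.trans ?_
          rw [div_le_iff₀ hx0]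
          nlinarith
        have h3 := h _ _ hu hv huv'
        have e : hx Φ x - hx Φ y = (‖x‖ - ‖y‖) • Φ (‖x‖⁻¹ • x) +
            ‖y‖ • (Φ (‖x‖⁻¹ • x) - Φ (‖y‖⁻¹ • y)) := by
          unfold hx
          module
        rw [e]
        refine (norm_add_le _ _).trans ?_
        rw [norm_smul, norm_smul, hΦ _ hu, mul_one, norm_norm, Real.norm_eq_abs]
        have h4 := abs_norm_sub_norm_le x y
        have h5 : ‖y‖ * ‖Φ (‖x‖⁻¹ • x) - Φ (‖y‖⁻¹ • y)‖ ≤ 1 * (ε / 4) :=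
          mul_le_mul hy1 h3 (norm_nonneg _) zero_le_one
        linarith

theorem HE.of_sphere {Φ : E → F} {Ψ : F → E} (hΦ : ∀ x, ‖x‖ = 1 → ‖Φ x‖ = 1)
    (hΨ : ∀ y, ‖y‖ = 1 → ‖Ψ y‖ = 1) (h1 : ∀ x, ‖x‖ = 1 → Ψ (Φ x) = x)
    (h2 : ∀ y, ‖y‖ = 1 → Φ (Ψ y) = y)
    (huc : ∀ ε > 0, ∃ δ > 0, ∀ x y : E, ‖x‖ = 1 → ‖y‖ = 1 → ‖x - y‖ ≤ δ → ‖Φ x - Φ y‖ ≤ ε)
    (huc' : ∀ ε > 0, ∃ δ > 0, ∀ x y : F, ‖x‖ = 1 → ‖y‖ = 1 → ‖x - y‖ ≤ δ → ‖Ψ x - Ψ y‖ ≤ ε) :
    HE E F :=
  ⟨hx Φ, hx Ψ, hx_HU hΦ huc, hx_HU hΨ huc', hx_inv hΦ h1, hx_inv hΨ h2⟩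

end sphere

/-! ## Pointwise uniform convexity of `|a| ^ P` -/

private theorem conv_strict {P : ℝ} (hP : 1 < P) {a b : ℝ} (hab : a ≠ b) :
    |(a + b) / 2| ^ P < (|a| ^ P + |b| ^ P) / 2 := by
  have hP0 : 0 < P := by linarith
  have h1 : |(a + b) / 2| ≤ (|a| + |b|) / 2 := by
    rw [abs_div, abs_two]
    exact div_le_div_of_nonneg_right (abs_add_le a b) (by norm_num)
  have h2 := Real.rpow_le_rpow (abs_nonneg _) h1 hP0.le
  by_cases h : |a| = |b|
  · have h3 : a = -b := by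
      rcases abs_eq_abs.1 h with h4 | h4
      · exact absurd h4 hab
      · exact h4
    have hb : b ≠ 0 := fun h0 => hab (by rw [h3, h0, neg_zero])
    rw [h3, neg_add_cancel, zero_div, abs_zero, Real.zero_rpow hP0.ne', abs_neg]
    have : 0 < |b| ^ P := Real.rpow_pos_of_pos (abs_pos.2 hb) P
    linarith
  · have hsc := (strictConvexOn_rpow hP).2
    have h3 := hsc (Set.mem_Ici.2 (abs_nonneg a)) (Set.mem_Ici.2 (abs_nonneg b)) h
      (show (0 : ℝ) < 1 / 2 by norm_num) (show (0 : ℝ) < 1 / 2 by norm_num) (by norm_num)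
    simp only [smul_eq_mul] at h3
    have h4 : 1 / 2 * |a| + 1 / 2 * |b| = (|a| + |b|) / 2 := by ring
    rw [h4] at h3
    linarith

theorem conv_ineq {P : ℝ} (hP : 1 < P) {κ : ℝ} (hκ : 0 < κ) : ∃ c > 0, ∀ a b : ℝ,
    |(a + b) / 2| ^ P + c * |a - b| ^ P ≤ (1 / 2 + c * κ) * (|a| ^ P + |b| ^ P) := by
  have hP0 : 0 < P := by linarith
  -- the compact set
  set ε : ℝ := κ ^ (1 / P) with hε
  have hε0 : 0 < ε := by positivity
  set K : Set (ℝ × ℝ) := {z | max |z.1| |z.2| = 1 ∧ ε ≤ |z.1 - z.2|} with hK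
  have hKc : IsCompact K := by
    have hcl : IsClosed K := by
      have e : K = {z : ℝ × ℝ | max |z.1| |z.2| = 1} ∩ {z : ℝ × ℝ | ε ≤ |z.1 - z.2|} := rfl
      rw [e]
      refine IsClosed.inter (isClosed_eq ?_ continuous_const) (isClosed_le continuous_const ?_)
      · exact (continuous_abs.comp continuous_fst).max (continuous_abs.comp continuous_snd)
      · exact continuous_abs.comp (continuous_fst.sub continuous_snd)
    refine (isCompact_Icc (a := ((-1 : ℝ), (-1 : ℝ))) (b := ((1 : ℝ), (1 : ℝ)))).of_isClosed_subset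
      hcl ?_
    rintro ⟨a, b⟩ ⟨h1, -⟩
    have ha : |a| ≤ 1 := h1 ▸ le_max_left _ _
    have hb : |b| ≤ 1 := h1 ▸ le_max_right _ _
    rw [abs_le] at ha hb
    exact ⟨⟨ha.1, hb.1⟩, ⟨ha.2, hb.2⟩⟩
  set G : ℝ × ℝ → ℝ := fun z => (|z.1| ^ P + |z.2| ^ P) / 2 - |(z.1 + z.2) / 2| ^ P with hG
  have hGc : Continuous G := by
    have hr := Real.continuous_rpow_const hP0.le
    exact (((hr.comp (continuous_abs.comp continuous_fst)).add
      (hr.comp (continuous_abs.comp continuous_snd))).div_const 2).sub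
      (hr.comp (continuous_abs.comp ((continuous_fst.add continuous_snd).div_const 2)))
  obtain ⟨δ, hδ, hδK⟩ : ∃ δ > 0, ∀ z ∈ K, δ ≤ G z := by
    rcases K.eq_empty_or_nonempty with h | h
    · exact ⟨1, one_pos, fun z hz => by rw [h] at hz; exact absurd hz (Set.notMem_empty z)⟩
    · obtain ⟨z, hz, hmin⟩ := hKc.exists_isMinOn h hGc.continuousOn
      refine ⟨G z, ?_, fun w hw => hmin hw⟩
      have hne : z.1 ≠ z.2 := fun h0 => by
        have h1 := hz.2
        rw [h0, sub_self, abs_zero] at h1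
        linarith
      have := conv_strict hP hne
      simp only [hG]
      linarith
  refine ⟨δ / 2 ^ P, by positivity, fun a b => ?_⟩
  set R := max |a| |b| with hR
  have hR0 : 0 ≤ R := (abs_nonneg a).trans (le_max_left _ _)
  have hRP : R ^ P ≤ |a| ^ P + |b| ^ P := by
    rcases max_choice |a| |b| with h1 | h1
    · rw [hR, h1]
      have := Real.rpow_nonneg (abs_nonneg b) P
      linarith
    · rw [hR, h1]
      have := Real.rpow_nonneg (abs_nonneg a) P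
      linarith
  have hs : 0 ≤ |a| ^ P + |b| ^ P :=
    add_nonneg (Real.rpow_nonneg (abs_nonneg a) P) (Real.rpow_nonneg (abs_nonneg b) P)
  have h2P : (0 : ℝ) < 2 ^ P := by positivity
  have hconv : |(a + b) / 2| ^ P ≤ (|a| ^ P + |b| ^ P) / 2 := by
    rcases eq_or_ne a b with h | h
    · rw [h, add_self_div_two, add_self_div_two]
    · exact (conv_strict hP h).le
  rcases le_or_gt (ε * R) |a - b| with h1 | h1
  · rcases hR0.eq_or_lt with h0 | h0
    · have ha : |a| = 0 := le_antisymm ((le_max_left _ _).trans h0.symm.le) (abs_nonneg _)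
      have hb : |b| = 0 := le_antisymm ((le_max_right _ _).trans h0.symm.le) (abs_nonneg _)
      rw [abs_eq_zero.1 ha, abs_eq_zero.1 hb, sub_self, add_zero, zero_div, abs_zero,
        Real.zero_rpow hP0.ne']
      simp
    · have hd : ∀ c : ℝ, |c / R| = |c| / R := fun c => by rw [abs_div, abs_of_pos h0]
      have hz : (a / R, b / R) ∈ K := by
        refine ⟨?_, ?_⟩
        · simp only [hd]
          rw [max_div_div_right hR0, ← hR, div_self h0.ne']
        · simp only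
          rw [← sub_div, hd, le_div_iff₀ h0]
          exact h1
      have h2 := hδK _ hz
      simp only [hG] at h2
      have e1 : (a / R + b / R) / 2 = (a + b) / 2 / R := by ring
      rw [e1, hd, hd, hd, Real.div_rpow (abs_nonneg _) hR0, Real.div_rpow (abs_nonneg _) hR0,
        Real.div_rpow (abs_nonneg _) hR0] at h2
      have hRP0 : 0 < R ^ P := Real.rpow_pos_of_pos h0 P
      have e2 : (|a| ^ P / R ^ P + |b| ^ P / R ^ P) / 2 - |(a + b) / 2| ^ P / R ^ P =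
          ((|a| ^ P + |b| ^ P) / 2 - |(a + b) / 2| ^ P) / R ^ P := by ring
      rw [e2, le_div_iff₀ hRP0] at h2
      have h3 : |a - b| ^ P ≤ 2 ^ P * R ^ P := by
        rw [← Real.mul_rpow (by norm_num) hR0]
        refine Real.rpow_le_rpow (abs_nonneg _) ?_ hP0.le
        refine (abs_sub _ _).trans ?_
        have := le_max_left |a| |b|
        have := le_max_right |a| |b|
        linarith
      have h4 : δ / 2 ^ P * |a - b| ^ P ≤ δ * R ^ P := by
        rw [div_mul_eq_mul_div, div_le_iff₀ h2P]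
        have := mul_le_mul_of_nonneg_left h3 hδ.le
        linarith
      have h5 : 0 ≤ δ / 2 ^ P * κ * (|a| ^ P + |b| ^ P) := by positivity
      linarith
  · have h2 : |a - b| ^ P ≤ κ * R ^ P := by
      have h3 := Real.rpow_le_rpow (abs_nonneg _) h1.le hP0.le
      rwa [Real.mul_rpow hε0.le hR0, hε, ← Real.rpow_mul hκ.le, one_div_mul_cancel hP0.ne',
        Real.rpow_one] at h3
    have h3 : δ / 2 ^ P * |a - b| ^ P ≤ δ / 2 ^ P * (κ * (|a| ^ P + |b| ^ P)) :=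
      mul_le_mul_of_nonneg_left (h2.trans (mul_le_mul_of_nonneg_left hRP hκ.le)) (by positivity)
    linarith

end Pool.Agent.UB
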