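import Pool.Agent.Lib_MP_2a50c0.Fin

/-!
# Subspaces with a uniformly continuous section of the quotient map
-/

set_option autoImplicit false

open Metric

namespace Pool.Agent.UB

section bddmap
variable {E F : Type} [NormedAddCommGroup E] [NormedSpace ℝ E] [NormedAddCommGroup F] [NormedSpace ℝ F]

omit [NormedSpace ℝ F] in
/-- a map which is uniformly continuous on the unit ball is bounded on it -/
theorem ball_bdd {σ : E → F} (h : UniformContinuousOn σ (closedBall 0 1)) :
    ∃ K > 0, ∀ x, ‖x‖ ≤ 1 → ‖σ x‖ ≤ K := by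
  rw [Metric.uniformContinuousOn_iff] at h
  obtain ⟨δ, hδ, h⟩ := h 1 one_pos
  obtain ⟨n, hn⟩ := exists_nat_gt (1 / δ)
  have hn0 : (0 : ℝ) < n := lt_trans (by positivity) hn
  refine ⟨‖σ 0‖ + n + 1, by positivity, fun x hx => ?_⟩
  have key : ∀ k : ℕ, k ≤ n → ‖σ (((k : ℝ) / n) • x)‖ ≤ ‖σ 0‖ + k := by
    intro k
    induction k with
    | zero =>
      intro _
      simp
    | succ k ih =>
      intro hk
      have hk' : (k : ℝ) + 1 ≤ n := by exact_mod_cast hk
      have hb : ∀ t : ℝ, 0 ≤ t → t ≤ 1 → t • x ∈ closedBall (0 : E) 1 := fun t h0 h1 => by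
        rw [mem_closedBall_zero_iff, norm_smul, Real.norm_of_nonneg h0]
        nlinarith [norm_nonneg x]
      have h1 := h (((k : ℝ) / n) • x) (hb _ (by positivity) (by
        rw [div_le_one hn0]
        linarith)) ((((k + 1 : ℕ) : ℝ) / n) • x) (hb _ (by positivity) (by
        rw [div_le_one hn0]
        push_cast
        exact hk')) (by
        rw [dist_eq_norm, ← sub_smul, norm_smul, ← sub_div]
        push_cast
        have e : (k : ℝ) - (k + 1) = -1 := by ring
        rw [e, norm_div, norm_neg, norm_one, Real.norm_of_nonneg hn0.le, div_mul_eq_mul_div,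
          one_mul, div_lt_iff₀ hn0]
        have h2 : 1 < δ * n := by
          rw [div_lt_iff₀ hδ] at hn
          linarith
        linarith)
      rw [dist_eq_norm] at h1
      have h2 := ih (by omega)
      have h3 : ‖σ ((((k + 1 : ℕ) : ℝ) / n) • x)‖ ≤ ‖σ (((k : ℝ) / n) • x)‖ +
          ‖σ (((k : ℝ) / n) • x) - σ ((((k + 1 : ℕ) : ℝ) / n) • x)‖ := by
        have := norm_sub_norm_le (σ ((((k + 1 : ℕ) : ℝ) / n) • x)) (σ (((k : ℝ) / n) • x))
        rw [norm_sub_rev] at this
        linarith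
      push_cast at h3 ⊢
      push_cast at h1
      linarith
  have h1 := key n le_rfl
  rw [div_self hn0.ne', one_smul] at h1
  linarith

/-- the homogeneous extension of a map of the unit sphere -/
theorem hx_HU' {σ : E → F} (h : UniformContinuousOn σ (closedBall 0 1)) : HU (hx σ) := by
  obtain ⟨K, hK, hb⟩ := ball_bdd h
  rw [Metric.uniformContinuousOn_iff] at h
  have hball : ∀ x : E, ‖x‖ ≤ 1 → x ∈ closedBall (0 : E) 1 := fun x hx => by
    rwa [mem_closedBall_zero_iff]
  have hnle : ∀ x : E, ‖hx σ x‖ ≤ K * ‖x‖ := by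
    intro x
    unfold hx
    rw [norm_smul, norm_norm, mul_comm]
    refine mul_le_mul_of_nonneg_right (hb _ ?_) (norm_nonneg _)
    rw [norm_smul, norm_inv, norm_norm]
    exact inv_mul_le_one
  refine ⟨fun t ht x => ?_, fun ε hε => ?_⟩
  · unfold hx
    rcases ht.eq_or_lt with h0 | h0
    · rw [← h0, zero_smul, zero_smul, norm_zero, zero_smul]
    · rw [norm_smul, Real.norm_of_nonneg ht, smul_smul (t * ‖x‖)⁻¹, smul_smul]
      congr 2
      have h1 : (t * ‖x‖)⁻¹ * t = ‖x‖⁻¹ := by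
        rw [mul_inv]
        field_simp
      rw [h1]
  · obtain ⟨δ, hδ, h⟩ := h (ε / 4) (by positivity)
    set r : ℝ := ε / (4 * (K + 1)) with hr
    have hr0 : 0 < r := by positivity
    have hrK : K * r ≤ ε / 4 := by
      rw [hr, mul_div_assoc', div_le_div_iff₀ (by positivity) (by norm_num)]
      nlinarith
    refine ⟨min r (δ * r / 4), lt_min hr0 (by positivity), fun x y hx1 hy1 hxy => ?_⟩
    have hd1 := hxy.trans (min_le_left _ _)
    have hd2 := hxy.trans (min_le_right _ _)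
    have hxy' : ‖y‖ ≤ ‖x‖ + ‖x - y‖ := by
      have := norm_sub_norm_le y x
      rw [norm_sub_rev] at this
      linarith
    rcases le_or_gt ‖x‖ r with h2 | h2
    · refine (norm_sub_le _ _).trans ?_
      have h3 := hnle x
      have h4 := hnle y
      have h5 : K * ‖x‖ ≤ K * r := mul_le_mul_of_nonneg_left h2 hK.le
      have h6 : K * ‖y‖ ≤ K * (2 * r) := mul_le_mul_of_nonneg_left (by linarith) hK.le
      linarith
    · rcases eq_or_ne y 0 with hy0 | hy0
      · rw [hy0, sub_zero] at hd1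
        linarith
      · have hx0 : 0 < ‖x‖ := by linarith
        have hy0' : 0 < ‖y‖ := norm_pos_iff.2 hy0
        have hu : ‖‖x‖⁻¹ • x‖ = 1 := by
          rw [norm_smul, norm_inv, norm_norm, inv_mul_cancel₀ hx0.ne']
        have hv : ‖‖y‖⁻¹ • y‖ = 1 := by
          rw [norm_smul, norm_inv, norm_norm, inv_mul_cancel₀ hy0'.ne']
        have huv : ‖‖x‖⁻¹ • x - ‖y‖⁻¹ • y‖ ≤ 2 * ‖x - y‖ / ‖x‖ := by
          have e : ‖x‖⁻¹ • x - ‖y‖⁻¹ • y = ‖x‖⁻¹ • (x - y) + (‖x‖⁻¹ - ‖y‖⁻¹) • y := by module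
          have e1 : ‖‖x‖⁻¹ • (x - y)‖ = ‖x - y‖ / ‖x‖ := by
            rw [norm_smul, norm_inv, norm_norm, inv_mul_eq_div]
          have e2 : ‖(‖x‖⁻¹ - ‖y‖⁻¹) • y‖ ≤ ‖x - y‖ / ‖x‖ := by
            have e3 : ‖x‖⁻¹ - ‖y‖⁻¹ = (‖y‖ - ‖x‖) / (‖x‖ * ‖y‖) := by field_simp
            rw [e3, norm_smul, Real.norm_eq_abs, abs_div, abs_of_pos (mul_pos hx0 hy0'), ← div_div,
              div_mul_cancel₀ _ hy0'.ne']
            refine div_le_div_of_nonneg_right ?_ hx0.le
            rw [norm_sub_rev]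
            exact abs_norm_sub_norm_le y x
          rw [e]
          refine (norm_add_le _ _).trans ?_
          rw [e1]
          have e4 : 2 * ‖x - y‖ / ‖x‖ = ‖x - y‖ / ‖x‖ + ‖x - y‖ / ‖x‖ := by ring
          rw [e4]
          linarith
        have huv' : ‖‖x‖⁻¹ • x - ‖y‖⁻¹ • y‖ < δ := by
          refine huv.trans_lt ?_
          rw [div_lt_iff₀ hx0]
          nlinarith
        have h3 := h _ (hball _ hu.le) _ (hball _ hv.le) (by rw [dist_eq_norm]; exact huv')
        rw [dist_eq_norm] at h3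
        have e : hx σ x - hx σ y = (‖x‖ - ‖y‖) • σ (‖x‖⁻¹ • x) +
            ‖y‖ • (σ (‖x‖⁻¹ • x) - σ (‖y‖⁻¹ • y)) := by
          unfold hx
          module
        rw [e]
        refine (norm_add_le _ _).trans ?_
        rw [norm_smul, norm_smul, norm_norm, Real.norm_eq_abs]
        have h4 := abs_norm_sub_norm_le x y
        have h5 : ‖y‖ * ‖σ (‖x‖⁻¹ • x) - σ (‖y‖⁻¹ • y)‖ ≤ 1 * (ε / 4) :=
          mul_le_mul hy1 h3.le (norm_nonneg _) zero_le_one
        have h6 : |‖x‖ - ‖y‖| * ‖σ (‖x‖⁻¹ • x)‖ ≤ r * K :=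
          mul_le_mul (h4.trans hd1) (hb _ hu.le) (norm_nonneg _) hr0.le
        linarith

end bddmap

section split
variable {Y : Type} [NormedAddCommGroup Y] [NormedSpace ℝ Y]

/-- a homogeneous section gives a splitting -/
theorem HE.split_HU (X : Submodule ℝ Y) [hX : IsClosed (X : Set Y)] (s : (Y ⧸ X) → Y) (hs : HU s)
    (hm : ∀ q, Submodule.Quotient.mk (s q) = q) : HE Y (X × (Y ⧸ X)) := by
  have hmem : ∀ y : Y, y - s (Submodule.Quotient.mk y) ∈ X := fun y => by
    rw [← Submodule.Quotient.mk_eq_zero, Submodule.Quotient.mk_sub, hm, sub_self]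
  have hQ : HU fun y : Y => (Submodule.Quotient.mk y : Y ⧸ X) := by
    refine ⟨fun t _ y => Submodule.Quotient.mk_smul X t y, fun ε hε => ⟨ε, hε, fun x y _ _ h => ?_⟩⟩
    rw [← Submodule.Quotient.mk_sub]
    exact (Submodule.Quotient.norm_mk_le X (x - y)).trans h
  have hP : HU fun y : Y => y - s (Submodule.Quotient.mk y) := HU.id.sub (hs.comp hQ)
  have hP' : HU fun y : Y => (⟨y - s (Submodule.Quotient.mk y), hmem y⟩ : X) :=
    ⟨fun t ht y => Subtype.ext (hP.hom t ht y), hP.uc⟩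
  have hS : HU fun z : X × (Y ⧸ X) => (z.1 : Y) + s z.2 := by
    refine HU.add ?_ (hs.comp (HU.clm (ContinuousLinearMap.snd ℝ X (Y ⧸ X))))
    exact HU.clm (X.subtypeL.comp (ContinuousLinearMap.fst ℝ X (Y ⧸ X)))
  refine ⟨fun y => (⟨y - s (Submodule.Quotient.mk y), hmem y⟩, Submodule.Quotient.mk y),
    fun z => (z.1 : Y) + s z.2, hP'.prodMk hQ, hS, fun y => ?_, fun z => ?_⟩
  · show y - s (Submodule.Quotient.mk y) + s (Submodule.Quotient.mk y) = y
    abel
  · obtain ⟨x, q⟩ := z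
    have h1 : (Submodule.Quotient.mk ((x : Y) + s q) : Y ⧸ X) = q := by
      rw [Submodule.Quotient.mk_add, hm, (Submodule.Quotient.mk_eq_zero X).2 x.2, zero_add]
    refine Prod.ext (Subtype.ext ?_) h1
    show (x : Y) + s q - s (Submodule.Quotient.mk ((x : Y) + s q)) = x
    rw [h1]
    abel

/-- a uniformly continuous section over the unit ball gives a splitting -/
theorem HE.split_sec (X : Submodule ℝ Y) [hX : IsClosed (X : Set Y)] (σ : (Y ⧸ X) → Y)
    (hσ : UniformContinuousOn σ (closedBall 0 1))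
    (hm : ∀ q, ‖q‖ ≤ 1 → Submodule.Quotient.mk (σ q) = q) : HE Y (X × (Y ⧸ X)) := by
  refine HE.split_HU X (hx σ) (hx_HU' hσ) fun q => ?_
  unfold hx
  rw [Submodule.Quotient.mk_smul, hm]
  · rcases eq_or_ne q 0 with h | h
    · rw [h, norm_zero, zero_smul]
    · rw [smul_smul, mul_inv_cancel₀ (norm_ne_zero_iff.2 h), one_smul]
  · rw [norm_smul, norm_inv, norm_norm]
    exact inv_mul_le_one

/-- a complemented copy of `E` is a direct factor -/
theorem HE.factor {X E : Type} [NormedAddCommGroup X] [NormedSpace ℝ X] [NormedAddCommGroup E]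
    [NormedSpace ℝ E] (S : E →L[ℝ] X) (P : X →L[ℝ] E) (h : ∀ a, P (S a) = a) :
    HE X (E × (P : X →ₗ[ℝ] E).ker) := by
  have hk : ∀ x, x - S (P x) ∈ (P : X →ₗ[ℝ] E).ker := fun x => by
    rw [LinearMap.mem_ker]
    show P (x - S (P x)) = 0
    rw [map_sub, h, sub_self]
  refine ⟨fun x => (P x, ⟨x - S (P x), hk x⟩), fun z => S z.1 + (z.2 : X), ?_, ?_, fun x => ?_,
    fun z => ?_⟩
  · refine HU.prodMk (HU.clm P) ?_
    have h1 : HU fun x => x - S (P x) := HU.id.sub (HU.clm (S.comp P))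
    exact ⟨fun t ht x => Subtype.ext (h1.hom t ht x), h1.uc⟩
  · refine HU.add ((HU.clm S).comp (HU.clm (ContinuousLinearMap.fst ℝ E (P : X →ₗ[ℝ] E).ker))) ?_
    exact (HU.clm (P : X →ₗ[ℝ] E).ker.subtypeL).comp
      (HU.clm (ContinuousLinearMap.snd ℝ E (P : X →ₗ[ℝ] E).ker))
  · show S (P x) + (x - S (P x)) = x
    abel
  · obtain ⟨a, k⟩ := z
    have hk0 : P (k : X) = 0 := k.2
    have h1 : P (S a + (k : X)) = a := by rw [map_add, h, hk0, add_zero]
    refine Prod.ext h1 (Subtype.ext ?_)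
    show S a + (k : X) - S (P (S a + (k : X))) = k
    rw [h1]
    abel

end split

end Pool.Agent.UB
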