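import Pool.Agent.Lib_MP_2a50c0.HE

/-!
# `ℓ₂`-sums and the decomposition method
-/

set_option autoImplicit false

open scoped ENNReal

namespace Pool.Agent.UB

/-- the `ℓ₂`-sum of countably many copies of `E` -/
abbrev LS (E : Type) [NormedAddCommGroup E] : Type := lp (fun _ : ℕ => E) 2

section sums
variable {E F : Type} [NormedAddCommGroup E] [NormedSpace ℝ E] [NormedAddCommGroup F] [NormedSpace ℝ F]

omit [NormedSpace ℝ E] in
theorem LS_summable (u : LS E) : Summable fun n => ‖u n‖ ^ 2 := by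
  have h := (lp.memℓp u).summable (by norm_num)
  simpa using h

omit [NormedSpace ℝ E] in
theorem LS_norm (u : LS E) : ‖u‖ ^ 2 = ∑' n, ‖u n‖ ^ 2 := by
  have h := lp.norm_rpow_eq_tsum (p := 2) (by norm_num) u
  simpa using h

omit [NormedSpace ℝ E] in
theorem LS_mem {u : ℕ → E} (h : Summable fun n => ‖u n‖ ^ 2) : Memℓp u 2 := by
  refine memℓp_gen ?_
  simpa using h

/-- coordinatewise application of a map -/
noncomputable def lmap (f : E → F) (hf : HU f) (u : LS E) : LS F :=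
  ⟨fun n => f (u n), by
    obtain ⟨C, hC, hb⟩ := hf.bdd
    refine LS_mem (Summable.of_nonneg_of_le (fun n => sq_nonneg _) (fun n => ?_)
      ((LS_summable u).mul_left (C ^ 2)))
    rw [← mul_pow]
    exact pow_le_pow_left₀ (norm_nonneg _) (hb _) 2⟩

@[simp] theorem lmap_apply (f : E → F) (hf : HU f) (u : LS E) (n : ℕ) : lmap f hf u n = f (u n) :=
  rfl

theorem lmap_HU (f : E → F) (hf : HU f) : HU (lmap f hf) := by
  refine ⟨fun t ht u => ?_, fun ε hε => ?_⟩
  · ext n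
    exact hf.hom t ht (u n)
  · obtain ⟨C, hC, h⟩ := hf.sqle (ε := ε ^ 2 / 4) (by positivity)
    refine ⟨Real.sqrt (ε ^ 2 / (2 * C)), Real.sqrt_pos.2 (by positivity), fun u v hu hv huv => ?_⟩
    have h1 : ‖lmap f hf u - lmap f hf v‖ ^ 2 ≤
        ε ^ 2 / 4 * (‖u‖ ^ 2 + ‖v‖ ^ 2) + C * ‖u - v‖ ^ 2 := by
      rw [LS_norm, LS_norm u, LS_norm v, LS_norm (u - v), ← (LS_summable u).tsum_add (LS_summable v),
        ← tsum_mul_left, ← tsum_mul_left,
        ← (((LS_summable u).add (LS_summable v)).mul_left _).tsum_add ((LS_summable (u - v)).mul_left _)]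
      refine Summable.tsum_le_tsum (fun n => ?_) (LS_summable _)
        ((((LS_summable u).add (LS_summable v)).mul_left _).add ((LS_summable (u - v)).mul_left _))
      exact h (u n) (v n)
    have hu2 : ‖u‖ ^ 2 ≤ 1 := pow_le_one₀ (norm_nonneg _) hu
    have hv2 : ‖v‖ ^ 2 ≤ 1 := pow_le_one₀ (norm_nonneg _) hv
    have h2 : ‖u - v‖ ^ 2 ≤ ε ^ 2 / (2 * C) := by
      have h3 := pow_le_pow_left₀ (norm_nonneg _) huv 2
      rwa [Real.sq_sqrt (by positivity)] at h3
    have h4 : C * ‖u - v‖ ^ 2 ≤ ε ^ 2 / 2 := by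
      have h5 := mul_le_mul_of_nonneg_left h2 hC.le
      have h6 : C * (ε ^ 2 / (2 * C)) = ε ^ 2 / 2 := by field_simp
      linarith
    have h7 : ‖lmap f hf u - lmap f hf v‖ ^ 2 ≤ ε ^ 2 := by
      have h8 : ε ^ 2 / 4 * (‖u‖ ^ 2 + ‖v‖ ^ 2) ≤ ε ^ 2 / 4 * 2 :=
        mul_le_mul_of_nonneg_left (by linarith) (by positivity)
      linarith
    exact (abs_le_of_sq_le_sq' h7 hε.le).2.trans' (le_refl _)

theorem HE.sum (h : HE E F) : HE (LS E) (LS F) := by
  obtain ⟨f, g, hf, hg, h1, h2⟩ := h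
  refine ⟨lmap f hf, lmap g hg, lmap_HU f hf, lmap_HU g hg, fun u => ?_, fun v => ?_⟩
  · ext n
    simp only [lmap_apply, h1]
  · ext n
    simp only [lmap_apply, h2]

end sums

end Pool.Agent.UB
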